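import Pool.Agent.W2helper62.DS.DS9

set_option autoImplicit false

/-! The theorem for the families in terms of the number of indices: the range of `M` is automatic. -/

namespace Pool.Agent.W2helper62.DS
open Finset
open Pool.Agent.H373R2.T7 (Vz Vz_pos Vz_le_one ev_L')
open Pool.Agent.N625.PT
open Pool.Agent.W2helper30.AN

/-- `M` is large if `n` is large -/
lemma M_large (K : ℕ) (hK : 1 ≤ K) (δ0 ε0 : ℝ) (hε02 : ε0 < 1 / 2) (C N₀ : ℕ) : ∃ n₁ : ℕ, ∀ n : ℕ, n₁ ≤ n →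
    ∀ (M : ℕ) (U : ℝ), Rg K δ0 ε0 M U → (n : ℝ) ≤ U / (M : ℝ) ^ K * Real.log n ^ C → N₀ ≤ M := by
  obtain ⟨W, hW⟩ : ∃ W, W = Real.exp ((Real.log N₀) ^ (3 / 2 - ε0)) := ⟨_, rfl⟩
  have hW0 : 0 < W := by rw [hW]; exact Real.exp_pos _
  obtain ⟨n₁, hn₁⟩ := Pool.Agent.H373R2.T7.ev_log' C W
  refine ⟨max n₁ 2, fun n hn M U hU hR => ?_⟩
  by_contra hM
  push Not at hM
  have h1 := hn₁ n (by omega)
  have hn2 : (2 : ℝ) ≤ n := by exact_mod_cast (by omega : 2 ≤ n)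
  have hl0 : 0 ≤ Real.log n := Real.log_natCast_nonneg n
  rcases Nat.eq_zero_or_pos M with h0 | h0
  · rw [h0, Nat.cast_zero, zero_pow (by omega), div_zero, zero_mul] at hR
    linarith
  · have hM1 : (1 : ℝ) ≤ M := by exact_mod_cast h0
    have hMN : (M : ℝ) ≤ N₀ := by exact_mod_cast hM.le
    have hU1 : U ≤ W := by
      rw [hW]
      refine hU.hi.trans (Real.exp_le_exp.2 ?_)
      apply Real.rpow_le_rpow (Real.log_nonneg hM1) (Real.log_le_log (by linarith) hMN)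
      linarith
    have hU0 : 0 ≤ U := le_trans (by positivity) hU.lo
    have h2 : U / (M : ℝ) ^ K ≤ U := div_le_self hU0 (one_le_pow₀ hM1)
    have h3 : (n : ℝ) ≤ √n := by
      calc (n : ℝ) ≤ U / (M : ℝ) ^ K * Real.log n ^ C := hR
        _ ≤ W * Real.log n ^ C := mul_le_mul_of_nonneg_right (h2.trans hU1) (by positivity)
        _ ≤ _ := h1
    have h4 := Real.sq_sqrt (by linarith : (0 : ℝ) ≤ n)
    nlinarith [Real.sqrt_nonneg (n : ℝ)]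

set_option maxHeartbeats 2000000 in
open Classical in
/-- the theorem for the families, in terms of the number of indices -/
theorem ac_fin (r : ℕ) (f : Fin r → ℝ → ℝ) (x0 : Fin r → ℝ) (k0 : Fin r → ℕ) (hf : ∀ j, Ord (f j) (x0 j) (k0 j)) (δ0 ε0 : ℝ)
    (hδ0 : 0 < δ0) (hε0 : 0 < ε0) (hε02 : ε0 < 1 / 2) (κ : Fin r → ℤ) (hκ : ∀ j, κ j ≠ 0) (a J A C E K₁ : ℕ) (θ : ℝ) (hθ : 0 < θ)
    (ε : ℝ) (hε : 0 < ε) (hε1 : ε ≤ 1) : ∃ N₀ : ℕ, ∀ n : ℕ, N₀ ≤ n → ∀ (M : Fin r → ℕ) (U : Fin r → ℝ),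
    (∀ j, Rg (k0 j) δ0 ε0 (M j) (U j)) →
    (∀ j, U j / (M j : ℝ) ^ k0 j ≤ n * Real.log n ^ C ∧ (n : ℝ) ≤ U j / (M j : ℝ) ^ k0 j * Real.log n ^ C) →
    ∀ y : ℕ, θ * Real.log (Real.log n) ≤ y → y ≤ K₁ * Real.log (Real.log n) →
    ∀ c : Fin r → ℤ, (∀ j, |(c j : ℝ) + κ j * (U j * f j (x0 j))| ≤ U j / (M j : ℝ) ^ k0 j * Real.log (U j) ^ a) →
    ∀ h : Fin r → ℕ, (∀ j, 1 ≤ h j ∧ (h j : ℝ) ≤ Real.log n ^ J) →
    ∀ (I : Finset ℕ) (g : Fin r → ℕ → ℕ), (∀ j, Set.InjOn (g j) I) →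
    (∀ j, ∀ i ∈ I, (g j i).Prime ∧ (g j i : ℝ) ≤ n * Real.log n ^ E) → (n : ℝ) ≤ I.card * Real.log n ^ A →
    ∀ σ : Fin r → ℤ, (∀ j, σ j = 1 ∨ σ j = -1) →
    (((Fintype.piFinset (fun j : Fin r => Ioc (M j) (2 * M j))).filter (fun m => ¬
      ((∀ j, ∀ i ∈ I, 0 < ((primorial y * h j : ℕ) : ℤ) * (c j + κ j * vl (f j) (x0 j) (U j) (m j)) + σ j * (g j i : ℕ)) →
        ∀ t : ℕ, t ≤ r → |((I.filter (fun i => ∀ j : Fin r, (j : ℕ) < t →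
          (((primorial y * h j : ℕ) : ℤ) * (c j + κ j * vl (f j) (x0 j) (U j) (m j)) + σ j * (g j i : ℕ)).toNat.Prime)).card : ℝ) -
          I.card / (Vz y * Real.log n) ^ t| ≤ ε * (I.card / (Vz y * Real.log n) ^ t)))).card : ℝ) ≤ ε * ∏ j, (M j : ℝ) := by
  obtain ⟨N₀, hN₀⟩ := ac_tupleT r f x0 k0 hf δ0 ε0 hδ0 hε0 hε02 κ hκ a J A C E K₁ θ hθ ε hε hε1
  choose n₁ hn₁ using fun j : Fin r => M_large (k0 j) (hf j).2.1 δ0 ε0 hε02 C N₀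
  refine ⟨max N₀ (univ.sup n₁), fun n hn M U hU hR => hN₀ n (by omega) M (fun j => ?_) U hU hR⟩
  exact hn₁ j n ((Finset.le_sup (f := n₁) (mem_univ j)).trans (by omega)) (M j) (U j) (hU j) (hR j).2

end Pool.Agent.W2helper62.DS
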