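import Pool.Agent.W2helper62.DS.DS10

set_option autoImplicit false

/-! Several independent random multiples of a small primorial, from different classes: arbitrary dense sets of primes, and the
form in terms of the number of indices. -/

namespace Pool.Agent.W2helper62.DS
open Finset
open Pool.Agent.H373R2.T7 (Vz Vz_pos Vz_le_one ev_L')
open Pool.Agent.N625.PT

set_option maxHeartbeats 2000000 in
open Classical in
/-- arbitrary dense sets of primes -/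
theorem tupleDP (r : ℕ) (b : Fin r → ℕ) (κ : Fin r → ℤ) (Cl : Fin r → ℕ → (ℕ → ℝ) → Prop) (hCl : ∀ j, DCls (b j) (κ j) (Cl j))
    (B J A C K₁ : ℕ) (θ : ℝ) (hθ : 0 < θ) (ε : ℝ) (hε : 0 < ε) (hε1 : ε ≤ 1) :
    ∃ X₀ : ℕ, ∀ X : ℕ, X₀ ≤ X → ∀ k : Fin r → ℕ,
    (∀ j, (b j : ℝ) ^ k j ≤ X * Real.log X ^ C ∧ (X : ℝ) ≤ (b j : ℝ) ^ k j * Real.log X ^ C) →
    ∀ p : Fin r → ℕ → ℝ, (∀ j, Cl j (k j) (p j)) →
    ∀ y : ℕ, θ * Real.log (Real.log X) ≤ y → y ≤ K₁ * Real.log (Real.log X) → ∀ c : Fin r → ℤ, (∀ j, |c j| ≤ B * (b j : ℤ) ^ k j) →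
    ∀ h : Fin r → ℕ, (∀ j, 1 ≤ h j ∧ (h j : ℝ) ≤ Real.log X ^ J) →
    ∀ (I : Finset ℕ) (f : Fin r → ℕ → ℕ), (∀ j, Set.InjOn (f j) I) →
    (∀ j, ∀ i ∈ I, (f j i).Prime ∧ f j i ≤ X) → (X : ℝ) ≤ I.card * Real.log X ^ A →
    ∀ σ : Fin r → ℤ, (∀ j, σ j = 1 ∨ σ j = -1) →
    ∑ v ∈ Fintype.piFinset (fun j : Fin r => range (b j ^ k j)),
      (if (∀ j, ∀ i ∈ I, 0 < Nm y (h j) (c j) (κ j) (v j) + σ j * (f j i : ℕ)) → ∀ t : ℕ, t ≤ r →
        |((I.filter (fun i => ∀ j : Fin r, (j : ℕ) < t → (Nm y (h j) (c j) (κ j) (v j) + σ j * (f j i : ℕ)).toNat.Prime)).card : ℝ) -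
          I.card / (Vz y * Real.log X) ^ t| ≤ ε * (I.card / (Vz y * Real.log X) ^ t) then 0 else ∏ j, p j (v j)) ≤ ε := by
  obtain ⟨N1, hN1⟩ := tupleD r b κ Cl hCl B J (A + 1) C K₁ θ hθ (ε / 2) (by linarith) (by linarith)
  obtain ⟨N2, hN2⟩ := big_enoughL A (2 * K₁ + J + 1 + r) ε hε
  obtain ⟨N3, hN3⟩ := ev_L' (max 3 r)
  refine ⟨max N1 (max N2 N3), fun X hX k hk p hp y hy1 hy2 c hc h hh S f' hinj hSp hSA σ hσ => ?_⟩
  have b2 := hN2 X (by omega) S.card hSA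
  have b3 := hN3 X (by omega)
  obtain ⟨l, hl⟩ : ∃ l, l = Real.log X := ⟨_, rfl⟩
  rw [← hl] at b2 b3
  have hl3 : 3 ≤ l := (le_max_left _ _).trans b3
  have hrl : (r : ℝ) ≤ l := (le_max_right _ _).trans b3
  obtain ⟨Q, hQ⟩ : ∃ Q : ℝ, Q = Vz y * Real.log X := ⟨_, rfl⟩
  have hVy := Vz_pos y
  have hQ0 : 0 < Q := by rw [hQ, ← hl]; exact mul_pos hVy (by linarith)
  have hQk : Q ≤ l := by
    rw [hQ, ← hl]
    exact mul_le_of_le_one_left (by linarith) (Vz_le_one y)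
  have hmult : ∀ j, ((primorial y * h j : ℕ) : ℝ) ≤ l ^ (2 * K₁ + J) := by
    intro j
    have h1 : ((primorial y : ℕ) : ℝ) ≤ l ^ (2 * K₁) :=
      Pool.Agent.Y877.SX.primorial_le_log K₁ y l (by linarith [Real.exp_one_lt_d9]) (by rw [hl]; exact hy2)
    have h2 := (hh j).2
    rw [← hl] at h2
    push_cast
    rw [pow_add]
    exact mul_le_mul h1 h2 (Nat.cast_nonneg _) (by positivity)
  obtain ⟨R, hR'⟩ : ∃ R, R = S.filter (fun s => ∃ j : Fin r, f' j s ∣ primorial y * h j) := ⟨_, rfl⟩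
  obtain ⟨S', hS'⟩ : ∃ S', S' = S.filter (fun s => ¬ ∃ j : Fin r, f' j s ∣ primorial y * h j) := ⟨_, rfl⟩
  have hsub : S' ⊆ S := by rw [hS']; exact filter_subset _ _
  have hRc : (R.card : ℝ) ≤ l ^ (2 * K₁ + J + 1) := by
    have h1 : R ⊆ (univ : Finset (Fin r)).biUnion (fun j => S.filter (fun s => f' j s ∣ primorial y * h j)) := by
      intro s hs
      rw [hR', mem_filter] at hs
      obtain ⟨hs1, j, hj⟩ := hs
      rw [mem_biUnion]
      exact ⟨j, mem_univ _, mem_filter.2 ⟨hs1, hj⟩⟩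
    have h2 : ∀ j ∈ (univ : Finset (Fin r)), ((S.filter (fun s => f' j s ∣ primorial y * h j)).card : ℝ) ≤ l ^ (2 * K₁ + J) := by
      intro j _
      have h3 : ((S.filter (fun s => f' j s ∣ primorial y * h j)).image (f' j)).card =
          (S.filter (fun s => f' j s ∣ primorial y * h j)).card := by
        refine card_image_of_injOn ((hinj j).mono ?_)
        intro s hs
        exact mem_coe.2 (mem_filter.1 (mem_coe.1 hs)).1
      rw [← h3]
      have h4 : ((S.filter (fun s => f' j s ∣ primorial y * h j)).image (f' j)).card ≤ primorial y * h j :=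
        few_dvd _ (Nat.mul_pos (primorial_pos y) (hh j).1) _ fun q hq => by
          rw [mem_image] at hq
          obtain ⟨s, hs, rfl⟩ := hq
          rw [mem_filter] at hs
          exact ⟨(hSp j s hs.1).1, hs.2⟩
      have h5 : (((S.filter (fun s => f' j s ∣ primorial y * h j)).image (f' j)).card : ℝ) ≤ ((primorial y * h j : ℕ) : ℝ) := by
        exact_mod_cast h4
      exact h5.trans (hmult j)
    have h3 : (R.card : ℝ) ≤ ∑ j : Fin r, ((S.filter (fun s => f' j s ∣ primorial y * h j)).card : ℝ) := by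
      exact_mod_cast (card_le_card h1).trans card_biUnion_le
    refine h3.trans ((sum_le_sum h2).trans ?_)
    rw [sum_const, card_univ, Fintype.card_fin, nsmul_eq_mul, pow_succ, mul_comm]
    exact mul_le_mul_of_nonneg_left hrl (by positivity)
  have hcard : ∀ (P : ℕ → Prop) [DecidablePred P], ((S.filter P).card : ℝ) ≤ ((S'.filter P).card : ℝ) + l ^ (2 * K₁ + J + 1) := by
    intro P _
    have h1 : S.filter P ⊆ S'.filter P ∪ R := by
      intro s hs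
      rw [mem_filter] at hs
      rw [mem_union, mem_filter, hS', hR', mem_filter, mem_filter]
      by_cases hd : ∃ j : Fin r, f' j s ∣ primorial y * h j
      · exact Or.inr ⟨hs.1, hd⟩
      · exact Or.inl ⟨⟨hs.1, hd⟩, hs.2⟩
    have h2 : ((S.filter P).card : ℝ) ≤ ((S'.filter P).card : ℝ) + R.card := by
      exact_mod_cast (card_le_card h1).trans (card_union_le _ _)
    linarith
  have hc1 : (S.card : ℝ) ≤ S'.card + l ^ (2 * K₁ + J + 1) := by
    have h1 := hcard (fun _ => True)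
    rwa [filter_true_of_mem (fun _ _ => trivial), filter_true_of_mem (fun _ _ => trivial)] at h1
  have hc2 : (S'.card : ℝ) ≤ S.card := by exact_mod_cast card_le_card hsub
  have hd1 : l ^ (2 * K₁ + J + 1) ≤ l ^ (2 * K₁ + J + 1 + r) := pow_le_pow_right₀ (by linarith) (by omega)
  have hd2 : ∀ t ≤ r, l ^ (2 * K₁ + J + 1) * Q ^ t ≤ l ^ (2 * K₁ + J + 1 + r) := by
    intro t ht
    rw [pow_add l (2 * K₁ + J + 1) r]
    apply mul_le_mul_of_nonneg_left _ (by positivity)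
    calc Q ^ t ≤ l ^ t := pow_le_pow_left₀ hQ0.le hQk t
      _ ≤ _ := pow_le_pow_right₀ (by linarith) ht
  have hdpos : 0 ≤ l ^ (2 * K₁ + J + 1) := by positivity
  have hSA' : (X : ℝ) ≤ S'.card * Real.log X ^ (A + 1) := by
    rw [← hl] at hSA ⊢
    have h1 : (S.card : ℝ) ≤ 2 * S'.card := by nlinarith
    calc (X : ℝ) ≤ S.card * l ^ A := hSA
      _ ≤ (2 * S'.card) * l ^ A := mul_le_mul_of_nonneg_right h1 (by positivity)
      _ = S'.card * (l ^ A * 2) := by ring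
      _ ≤ S'.card * (l ^ A * l) := by
          apply mul_le_mul_of_nonneg_left _ (Nat.cast_nonneg _)
          exact mul_le_mul_of_nonneg_left (by linarith) (by positivity)
      _ = _ := by rw [pow_succ]
  have h5 := hN1 X (by omega) k hk p hp y hy1 hy2 c hc h hh S' f'
    (fun j => (hinj j).mono (by exact_mod_cast hsub))
    (fun j s hs => by
    rw [hS', mem_filter] at hs
    have h6 := hSp j s hs.1
    refine ⟨h6.1.pos, h6.2, ?_⟩
    exact h6.1.coprime_iff_not_dvd.2 fun hd => hs.2 ⟨j, hd⟩) hSA' σ hσ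
  refine le_trans (sum_le_sum fun v _ => ?_) (h5.trans (by linarith))
  have hw0 : 0 ≤ ∏ j, p j (v j) := prod_nonneg fun j _ => (hCl j).nonneg _ _ (hp j) _
  rw [← hQ]
  obtain ⟨G, hG⟩ : ∃ G : Prop, G ↔ ((∀ j, ∀ s ∈ S', 0 < Nm y (h j) (c j) (κ j) (v j) + σ j * (f' j s : ℕ)) → ∀ t : ℕ, t ≤ r →
        |((S'.filter (fun s => ∀ j : Fin r, (j : ℕ) < t → (Nm y (h j) (c j) (κ j) (v j) + σ j * (f' j s : ℕ)).toNat.Prime)).card : ℝ) -
          S'.card / Q ^ t| ≤ ε / 2 * (S'.card / Q ^ t)) := ⟨_, Iff.rfl⟩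
  obtain ⟨G', hG'⟩ : ∃ G' : Prop, G' ↔ ((∀ j, ∀ s ∈ S, 0 < Nm y (h j) (c j) (κ j) (v j) + σ j * (f' j s : ℕ)) → ∀ t : ℕ, t ≤ r →
        |((S.filter (fun s => ∀ j : Fin r, (j : ℕ) < t → (Nm y (h j) (c j) (κ j) (v j) + σ j * (f' j s : ℕ)).toNat.Prime)).card : ℝ) -
          S.card / Q ^ t| ≤ ε * (S.card / Q ^ t)) := ⟨_, Iff.rfl⟩
  have himp : G → G' := by
    intro hg
    rw [hG] at hg
    rw [hG']
    intro hpos t ht
    have g1 := hg (fun j s hs => hpos j s (hsub hs)) t ht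
    obtain ⟨W, hW⟩ : ∃ W : ℕ → Prop, ∀ s, W s ↔ ∀ j : Fin r, (j : ℕ) < t →
        (Nm y (h j) (c j) (κ j) (v j) + σ j * (f' j s : ℕ)).toNat.Prime := ⟨_, fun _ => Iff.rfl⟩
    have hW1 : ∀ Z : Finset ℕ, (Z.filter (fun s => ∀ j : Fin r, (j : ℕ) < t →
        (Nm y (h j) (c j) (κ j) (v j) + σ j * (f' j s : ℕ)).toNat.Prime)) = Z.filter W := by
      intro Z
      apply filter_congr
      intro s _
      rw [hW]
    rw [hW1] at g1 ⊢
    have h6 : ((S'.filter W).card : ℝ) ≤ ((S.filter W).card : ℝ) := by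
      exact_mod_cast card_le_card (filter_subset_filter _ hsub)
    have h7 := hcard W
    have q1 := hd2 t ht
    exact remove_few (S.card : ℝ) (S'.card : ℝ) _ _ (l ^ (2 * K₁ + J + 1)) (Q ^ t) ε (by positivity) hε hε1 hc2 hc1 h6 h7 hdpos
      (Nat.cast_nonneg _) (by linarith) (by linarith) g1
  have hgoal : (if G' then 0 else ∏ j, p j (v j)) ≤ (if G then 0 else ∏ j, p j (v j)) := by
    by_cases hq : G
    · rw [if_pos hq, if_pos (himp hq)]
    · rw [if_neg hq]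
      split_ifs
      · exact hw0
      · exact le_rfl
  refine le_trans (le_of_eq ?_) (hgoal.trans (le_of_eq ?_))
  · by_cases hq : G'
    · rw [if_pos hq, if_pos (hG'.1 hq)]
    · rw [if_neg hq, if_neg (fun h => hq (hG'.2 h))]
  · by_cases hq : G
    · rw [if_pos hq, if_pos (hG.1 hq)]
    · rw [if_neg hq, if_neg (fun h => hq (hG.2 h))]

set_option maxHeartbeats 2000000 in
open Classical in
/-- in terms of the number of indices -/
theorem tupleDT (r : ℕ) (b : Fin r → ℕ) (κ : Fin r → ℤ) (Cl : Fin r → ℕ → (ℕ → ℝ) → Prop) (hCl : ∀ j, DCls (b j) (κ j) (Cl j))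
    (B J A C E K₁ : ℕ) (θ : ℝ) (hθ : 0 < θ) (ε : ℝ) (hε : 0 < ε) (hε1 : ε ≤ 1) :
    ∃ n₀ : ℕ, ∀ n : ℕ, n₀ ≤ n → ∀ k : Fin r → ℕ,
    (∀ j, (b j : ℝ) ^ k j ≤ n * Real.log n ^ C ∧ (n : ℝ) ≤ (b j : ℝ) ^ k j * Real.log n ^ C) →
    ∀ p : Fin r → ℕ → ℝ, (∀ j, Cl j (k j) (p j)) →
    ∀ y : ℕ, θ * Real.log (Real.log n) ≤ y → y ≤ K₁ * Real.log (Real.log n) → ∀ c : Fin r → ℤ, (∀ j, |c j| ≤ B * (b j : ℤ) ^ k j) →
    ∀ h : Fin r → ℕ, (∀ j, 1 ≤ h j ∧ (h j : ℝ) ≤ Real.log n ^ J) →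
    ∀ (I : Finset ℕ) (f : Fin r → ℕ → ℕ), (∀ j, Set.InjOn (f j) I) →
    (∀ j, ∀ i ∈ I, (f j i).Prime ∧ (f j i : ℝ) ≤ n * Real.log n ^ E) → (n : ℝ) ≤ I.card * Real.log n ^ A →
    ∀ σ : Fin r → ℤ, (∀ j, σ j = 1 ∨ σ j = -1) →
    ∑ v ∈ Fintype.piFinset (fun j : Fin r => range (b j ^ k j)),
      (if (∀ j, ∀ i ∈ I, 0 < Nm y (h j) (c j) (κ j) (v j) + σ j * (f j i : ℕ)) → ∀ t : ℕ, t ≤ r →
        |((I.filter (fun i => ∀ j : Fin r, (j : ℕ) < t → (Nm y (h j) (c j) (κ j) (v j) + σ j * (f j i : ℕ)).toNat.Prime)).card : ℝ) -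
          I.card / (Vz y * Real.log n) ^ t| ≤ ε * (I.card / (Vz y * Real.log n) ^ t) then 0 else ∏ j, p j (v j)) ≤ ε := by
  obtain ⟨δ, hδ, hδr, n₁, hn₁⟩ := scale_n E r ε hε hε1
  obtain ⟨N1, hN1⟩ := tupleDP r b κ Cl hCl B J (A + (E + 1)) (C + (E + 1)) K₁ (θ / 2) (by linarith)
    (ε / 2) (by linarith) (by linarith)
  refine ⟨max N1 n₁, fun n hn k hk p hp y hy1 hy2 c hc h hh I g hinj hg hIA σ hσ => ?_⟩
  obtain ⟨X, hX⟩ : ∃ X, X = ⌈(n : ℝ) * Real.log n ^ E⌉₊ := ⟨_, rfl⟩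
  obtain ⟨s1, s2, s3, s4, s5, s6, s7, s8⟩ := hn₁ n (by omega) X hX
  have hn0 : (0 : ℝ) ≤ n := Nat.cast_nonneg _
  have hl0 : 0 ≤ Real.log n := by linarith
  have hnX : (n : ℝ) ≤ X := by exact_mod_cast s1
  have hpw : ∀ e : ℕ, Real.log n ^ e ≤ Real.log X ^ e := fun e => pow_le_pow_left₀ hl0 s5 e
  have hlX1 : 1 ≤ Real.log X := by linarith
  have h5 := hN1 X (by omega) k (fun j => by
    have hj := hk j
    constructor
    · calc (b j : ℝ) ^ k j ≤ n * Real.log n ^ C := hj.1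
        _ ≤ X * Real.log X ^ (C + (E + 1)) := by
            apply mul_le_mul hnX _ (by positivity) (Nat.cast_nonneg _)
            exact (hpw C).trans (pow_le_pow_right₀ hlX1 (by omega))
    · calc (X : ℝ) ≤ n * Real.log n ^ (E + 1) := s4
        _ ≤ ((b j : ℝ) ^ k j * Real.log n ^ C) * Real.log n ^ (E + 1) := mul_le_mul_of_nonneg_right hj.2 (by positivity)
        _ = (b j : ℝ) ^ k j * Real.log n ^ (C + (E + 1)) := by rw [pow_add]; ring
        _ ≤ _ := mul_le_mul_of_nonneg_left (hpw _) (by positivity)) p hp y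
    (by
      have : θ / 2 * Real.log (Real.log X) ≤ θ / 2 * (2 * Real.log (Real.log n)) := mul_le_mul_of_nonneg_left s8 (by linarith)
      linarith)
    (hy2.trans (mul_le_mul_of_nonneg_left s7 (Nat.cast_nonneg _))) c hc h (fun j => ⟨(hh j).1, (hh j).2.trans (hpw J)⟩) I g hinj
    (fun j i hi => ⟨(hg j i hi).1, by
      have := (hg j i hi).2.trans s3
      exact_mod_cast this⟩)
    (by
      calc (X : ℝ) ≤ n * Real.log n ^ (E + 1) := s4
        _ ≤ (I.card * Real.log n ^ A) * Real.log n ^ (E + 1) := mul_le_mul_of_nonneg_right hIA (by positivity)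
        _ = I.card * Real.log n ^ (A + (E + 1)) := by rw [pow_add]; ring
        _ ≤ _ := mul_le_mul_of_nonneg_left (hpw _) (Nat.cast_nonneg _)) σ hσ
  refine le_trans (sum_le_sum fun v _ => ?_) (h5.trans (by linarith))
  have hw0 : 0 ≤ ∏ j, p j (v j) := prod_nonneg fun j _ => (hCl j).nonneg _ _ (hp j) _
  obtain ⟨G, hG⟩ : ∃ G : Prop, G ↔ ((∀ j, ∀ i ∈ I, 0 < Nm y (h j) (c j) (κ j) (v j) + σ j * (g j i : ℕ)) → ∀ t : ℕ, t ≤ r →
        |((I.filter (fun i => ∀ j : Fin r, (j : ℕ) < t → (Nm y (h j) (c j) (κ j) (v j) + σ j * (g j i : ℕ)).toNat.Prime)).card : ℝ) -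
          I.card / (Vz y * Real.log X) ^ t| ≤ ε / 2 * (I.card / (Vz y * Real.log X) ^ t)) := ⟨_, Iff.rfl⟩
  obtain ⟨G', hG'⟩ : ∃ G' : Prop, G' ↔ ((∀ j, ∀ i ∈ I, 0 < Nm y (h j) (c j) (κ j) (v j) + σ j * (g j i : ℕ)) → ∀ t : ℕ, t ≤ r →
        |((I.filter (fun i => ∀ j : Fin r, (j : ℕ) < t → (Nm y (h j) (c j) (κ j) (v j) + σ j * (g j i : ℕ)).toNat.Prime)).card : ℝ) -
          I.card / (Vz y * Real.log n) ^ t| ≤ ε * (I.card / (Vz y * Real.log n) ^ t)) := ⟨_, Iff.rfl⟩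
  have himp : G → G' := by
    intro hg
    rw [hG] at hg
    rw [hG']
    intro hpos t ht
    exact main_change t _ (Vz y) (Real.log n) (Real.log X) _ δ ε (Nat.cast_nonneg _) (Vz_pos y) (by linarith) s5 s6 hε.le (hδr t ht)
      (hg hpos t ht)
  have hgoal : (if G' then 0 else ∏ j, p j (v j)) ≤ (if G then 0 else ∏ j, p j (v j)) := by
    by_cases hq : G
    · rw [if_pos hq, if_pos (himp hq)]
    · rw [if_neg hq]
      split_ifs
      · exact hw0
      · exact le_rfl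
  refine le_trans (le_of_eq ?_) (hgoal.trans (le_of_eq ?_))
  · by_cases hq : G'
    · rw [if_pos hq, if_pos (hG'.1 hq)]
    · rw [if_neg hq, if_neg (fun h => hq (hG'.2 h))]
  · by_cases hq : G
    · rw [if_pos hq, if_pos (hG.1 hq)]
    · rw [if_neg hq, if_neg (fun h => hq (hG.2 h))]

end Pool.Agent.W2helper62.DS
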