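import Pool.Agent.W2helper62.DS.DS2

set_option autoImplicit false

/-! Classes with the law for all the multiples and the sieve law: the single estimate at a given scale, in terms of the scale
only. -/

namespace Pool.Agent.W2helper62.DS
open Finset
open Pool.Agent.H373R2.T7 (pz mem_pz Vz Vz_pos Vz_le_one ev_L')
open Pool.Agent.N625.PT

/-- the number of digits at a given scale -/
lemma sizes (b C k₀ : ℕ) (hb : 2 ≤ b) (δ : ℝ) (hδ : 0 < δ) (hδ1 : δ ≤ 1 / 2) : ∃ X₀ : ℕ, ∀ X : ℕ, X₀ ≤ X → ∀ k : ℕ,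
    (b : ℝ) ^ k ≤ X * Real.log X ^ C → (X : ℝ) ≤ (b : ℝ) ^ k * Real.log X ^ C →
    k₀ ≤ k ∧ 3 ≤ Real.log X ∧ (1 - δ) * Real.log X ≤ k * Real.log b ∧ k * Real.log b ≤ (1 + δ) * Real.log X ∧
    Real.log X ≤ (k : ℝ) ^ 2 ∧ (k : ℝ) ≤ 3 * Real.log X ∧ Real.log k ≤ 2 * Real.log (Real.log X) ∧
    Real.log (Real.log X) ≤ 2 * Real.log k := by
  have hbr : (2 : ℝ) ≤ b := by exact_mod_cast hb
  have hlogb : 0.69 < Real.log b := by
    have := Real.log_two_gt_d9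
    have := Real.log_le_log (by norm_num) hbr
    linarith
  obtain ⟨x1, hx1⟩ := Filter.eventually_atTop.1 (Real.isLittleO_log_id_atTop.bound (show (0 : ℝ) < δ / (C + 1) by positivity))
  obtain ⟨X₀, hX₀⟩ := ev_L' (max (max 3 x1) (2 * Real.log b * (k₀ + 2 * Real.log b + 1)))
  refine ⟨max X₀ 2, fun X hX k h1 h2 => ?_⟩
  have h3 := hX₀ X (by omega)
  obtain ⟨L, hL⟩ : ∃ L, L = Real.log X := ⟨_, rfl⟩
  rw [← hL] at h1 h2 h3 ⊢
  have hL3 : 3 ≤ L := (le_trans (le_max_left _ _) (le_max_left _ _)).trans h3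
  have hLx : x1 ≤ L := (le_trans (le_max_right _ _) (le_max_left _ _)).trans h3
  have hLb : 2 * Real.log b * (k₀ + 2 * Real.log b + 1) ≤ L := (le_max_right _ _).trans h3
  have hL0 : 0 < L := by linarith
  have hX0 : (0 : ℝ) < X := by exact_mod_cast (by omega : 0 < X)
  have hlog : C * Real.log L ≤ δ * L := by
    have h4 := hx1 L hLx
    simp only [id] at h4
    rw [Real.norm_of_nonneg (Real.log_nonneg (by linarith)), Real.norm_of_nonneg hL0.le] at h4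
    have hC0 : (0 : ℝ) ≤ C := Nat.cast_nonneg _
    have h5 : (C : ℝ) * (δ / (C + 1) * L) ≤ δ * L := by
      have : (C : ℝ) * (δ / (C + 1) * L) = (C / (C + 1)) * (δ * L) := by ring
      rw [this]
      apply mul_le_of_le_one_left (by positivity)
      rw [div_le_one (by positivity)]
      linarith
    exact (mul_le_mul_of_nonneg_left h4 hC0).trans h5
  have hb0 : (0 : ℝ) < b := by linarith
  have hLC : 0 < L ^ C := by positivity
  have g1 : k * Real.log b ≤ (1 + δ) * L := by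
    have h4 := Real.log_le_log (by positivity) h1
    rw [Real.log_pow, Real.log_mul hX0.ne' hLC.ne', Real.log_pow, ← hL] at h4
    linarith
  have g2 : (1 - δ) * L ≤ k * Real.log b := by
    have h4 := Real.log_le_log hX0 h2
    rw [Real.log_mul (by positivity) hLC.ne', Real.log_pow, Real.log_pow, ← hL] at h4
    linarith
  have hk0 : (0 : ℝ) ≤ k := Nat.cast_nonneg _
  have g3 : L ≤ 2 * (k * Real.log b) := by nlinarith
  have g4 : k₀ + 2 * Real.log b + 1 ≤ k := by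
    have h5 : 2 * Real.log b * (k₀ + 2 * Real.log b + 1) ≤ 2 * Real.log b * k := by linarith
    exact le_of_mul_le_mul_left h5 (by linarith)
  have g5 : L ≤ (k : ℝ) ^ 2 := by
    rw [sq]
    have : 2 * (k * Real.log b) ≤ k * k := by nlinarith
    linarith
  have g6 : (k : ℝ) ≤ 3 * L := by nlinarith
  have hk1 : (1 : ℝ) ≤ k := by
    have : (0 : ℝ) ≤ k₀ := Nat.cast_nonneg _
    linarith
  refine ⟨?_, hL3, g2, g1, g5, g6, ?_, ?_⟩
  · have : (k₀ : ℝ) ≤ k := by linarith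
    exact_mod_cast this
  · have h5 : Real.log k ≤ Real.log (3 * L) := Real.log_le_log (by linarith) g6
    rw [Real.log_mul (by norm_num) hL0.ne'] at h5
    have h6 : Real.log 3 ≤ Real.log L := Real.log_le_log (by norm_num) hL3
    linarith
  · have h5 := Real.log_le_log hL0 g5
    rw [Real.log_pow] at h5
    push_cast at h5
    exact h5

lemma main_cmp (m V a L N δ ε : ℝ) (hm : 0 ≤ m) (hV : 0 < V) (ha : 0 < a) (hL : 0 < L) (hδ : 0 ≤ δ) (hδ1 : δ ≤ 1 / 2)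
    (hε : 8 * δ ≤ ε) (h1 : (1 - δ) * L ≤ a) (h2 : a ≤ (1 + δ) * L) (h3 : |N - m / (V * a)| ≤ δ * (m / (V * a))) :
    |N - m / (V * L)| ≤ ε * (m / (V * L)) := by
  obtain ⟨w, hw⟩ : ∃ w, w = m / (V * L) := ⟨_, rfl⟩
  have hw0 : 0 ≤ w := by rw [hw]; positivity
  have e1 : m / (V * a) = w * (L / a) := by
    rw [hw]
    field_simp
  rw [← hw]
  rw [e1] at h3
  have g1 : L / a ≤ 1 + 2 * δ := by
    rw [div_le_iff₀ ha]
    nlinarith [mul_nonneg hδ hL.le]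
  have g2 : 1 - δ ≤ L / a := by
    rw [le_div_iff₀ ha]
    nlinarith [mul_nonneg hδ hL.le]
  have g3 : w * (L / a) ≤ w * (1 + 2 * δ) := mul_le_mul_of_nonneg_left g1 hw0
  have g4 : w * (1 - δ) ≤ w * (L / a) := mul_le_mul_of_nonneg_left g2 hw0
  have g5 : δ * (w * (L / a)) ≤ δ * (w * 2) := by
    apply mul_le_mul_of_nonneg_left _ hδ
    refine g3.trans (mul_le_mul_of_nonneg_left (by linarith) hw0)
  obtain ⟨a1, a2⟩ := abs_le.1 h3
  have g6 : 8 * δ * w ≤ ε * w := mul_le_mul_of_nonneg_right hε hw0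
  have g7 : 0 ≤ δ * w := mul_nonneg hδ hw0
  rw [abs_le]
  constructor <;> nlinarith

open Classical in
/-- the single estimate in terms of the scale -/
theorem law3 {b : ℕ} {κ : ℤ} {Cl : ℕ → (ℕ → ℝ) → Prop} (hCl : DCls b κ Cl)
    (B J A C K₁ : ℕ) (θ : ℝ) (hθ : 0 < θ) (ε : ℝ) (hε : 0 < ε) (hε1 : ε ≤ 1) : ∃ X₀ : ℕ, ∀ X : ℕ, X₀ ≤ X → ∀ k : ℕ,
    (b : ℝ) ^ k ≤ X * Real.log X ^ C → (X : ℝ) ≤ (b : ℝ) ^ k * Real.log X ^ C →
    ∀ p, Cl k p → ∀ y : ℕ, θ * Real.log (Real.log X) ≤ y → y ≤ K₁ * Real.log (Real.log X) → ∀ c : ℤ, |c| ≤ B * (b : ℤ) ^ k →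
    ∀ h : ℕ, 1 ≤ h → (h : ℝ) ≤ Real.log X ^ J →
    ∀ S : Finset ℕ, S ⊆ Icc 1 X → (∀ s ∈ S, s.Coprime (primorial y * h)) → (X : ℝ) ≤ S.card * Real.log X ^ A →
    ∀ σ : ℤ, (σ = 1 ∨ σ = -1) →
    ∑ v ∈ range (b ^ k), (if (∀ s ∈ S, 0 < ((primorial y * h : ℕ) : ℤ) * (c + κ * (v : ℕ)) + σ * (s : ℕ)) ∧
      ε * (S.card / (Vz y * Real.log X)) <
      |((S.filter (fun s => (((primorial y * h : ℕ) : ℤ) * (c + κ * (v : ℕ)) + σ * (s : ℕ)).toNat.Prime)).card : ℝ) -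
      S.card / (Vz y * Real.log X)| then p v else 0) ≤ ε := by
  have hb := hCl.two
  obtain ⟨δ, hδ⟩ : ∃ δ, δ = ε / 8 := ⟨_, rfl⟩
  have hδ0 : 0 < δ := by rw [hδ]; positivity
  have hδ8 : δ ≤ 1 / 8 := by rw [hδ]; linarith
  obtain ⟨k₀, h0⟩ := law2D hCl B (2 * J) (2 * A) (2 * C) (2 * K₁) (θ / 2) (by positivity) δ hδ0 (by linarith)
  obtain ⟨X₀, hX₀⟩ := sizes b C (k₀ + 1) hb δ hδ0 (by linarith)
  refine ⟨max X₀ 2, fun X hX k hX1 hX2 p hp y hy1 hy2 c hc h hh1 hhJ S hS hSp hSA σ hσ => ?_⟩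
  obtain ⟨a1, a2, a3, a4, a5, a6, a7, a8⟩ := hX₀ X (by omega) k hX1 hX2
  obtain ⟨L, hL⟩ : ∃ L, L = Real.log X := ⟨_, rfl⟩
  rw [← hL] at hX1 hX2 hy1 hy2 hhJ hSA a2 a3 a4 a5 a6 a7 a8 ⊢
  have hL0 : 0 < L := by linarith
  have hk1 : (1 : ℝ) ≤ k := by exact_mod_cast (by omega : 1 ≤ k)
  have hb0 : (0 : ℝ) < b := by exact_mod_cast (by omega : 0 < b)
  have hX0 : (0 : ℝ) < X := by exact_mod_cast (by omega : 0 < X)
  have hpow : ∀ j : ℕ, L ^ j ≤ (k : ℝ) ^ (2 * j) := fun j => by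
    rw [pow_mul]
    exact pow_le_pow_left₀ hL0.le a5 j
  have hlk : 0 ≤ Real.log k := Real.log_nonneg hk1
  have hlogb : 0.69 < Real.log b := by
    have hbr : (2 : ℝ) ≤ b := by exact_mod_cast hb
    have := Real.log_two_gt_d9
    have := Real.log_le_log (by norm_num) hbr
    linarith
  have g1 : θ / 2 * Real.log k ≤ y := by
    refine le_trans ?_ hy1
    have := mul_le_mul_of_nonneg_left a7 (by positivity : 0 ≤ θ / 2)
    linarith
  have g2 : (y : ℝ) ≤ ((2 * K₁ : ℕ) : ℝ) * Real.log k := by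
    refine hy2.trans ?_
    have := mul_le_mul_of_nonneg_left a8 (Nat.cast_nonneg K₁ : (0 : ℝ) ≤ K₁)
    push_cast
    linarith
  have g3 : h ≤ k ^ (2 * J) := by
    have : (h : ℝ) ≤ (k : ℝ) ^ (2 * J) := hhJ.trans (hpow J)
    exact_mod_cast this
  have g4 : b ^ k ≤ X * k ^ (2 * C) := by
    have : (b : ℝ) ^ k ≤ X * (k : ℝ) ^ (2 * C) := hX1.trans (mul_le_mul_of_nonneg_left (hpow C) hX0.le)
    exact_mod_cast this
  have g5 : X ≤ b ^ k * k ^ (2 * C) := by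
    have : (X : ℝ) ≤ (b : ℝ) ^ k * (k : ℝ) ^ (2 * C) := hX2.trans (mul_le_mul_of_nonneg_left (hpow C) (by positivity))
    exact_mod_cast this
  have g6 : (X : ℝ) ≤ S.card * (k : ℝ) ^ (2 * A) := hSA.trans (mul_le_mul_of_nonneg_left (hpow A) (Nat.cast_nonneg _))
  have h5 := h0 k (by omega) p hp y g1 g2 c hc h hh1 g3 X g4 g5 S hS hSp g6 σ hσ
  refine le_trans (sum_le_sum fun v _ => ?_) (h5.trans (by linarith))
  have hpv := hCl.nonneg k p hp v
  by_cases hq : (∀ s ∈ S, 0 < ((primorial y * h : ℕ) : ℤ) * (c + κ * (v : ℕ)) + σ * (s : ℕ)) ∧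
      δ * (S.card / (Vz y * (k * Real.log b))) <
      |((S.filter (fun s => (((primorial y * h : ℕ) : ℤ) * (c + κ * (v : ℕ)) + σ * (s : ℕ)).toNat.Prime)).card : ℝ) -
      S.card / (Vz y * (k * Real.log b))|
  · rw [if_pos hq]
    split_ifs
    · exact le_rfl
    · exact hpv
  · rw [if_neg hq, if_neg]
    rintro ⟨q1, q2⟩
    apply hq
    refine ⟨q1, ?_⟩
    by_contra hcon
    push Not at hcon
    exact absurd (main_cmp _ (Vz y) (k * Real.log b) L _ δ ε (Nat.cast_nonneg _) (Vz_pos y) (by positivity) hL0 hδ0.le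
      (by linarith) (by rw [hδ]; linarith) a3 a4 hcon) (not_le.2 q2)

end Pool.Agent.W2helper62.DS
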