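import Pool.Agent.W2helper62.DS.DS3

set_option autoImplicit false

/-! Classes with the law for all the multiples and the sieve law: tuples for several independent random multiples of a small
primorial, from different classes and with different numbers of digits, at the same scale (after
`Pool.Agent.N625.PT.tuple_law`). -/

namespace Pool.Agent.W2helper62.DS
open Finset
open Pool.Agent.H373R2.T7 (pz mem_pz Vz Vz_pos Vz_le_one ev_L')
open Pool.Agent.N625.PT

set_option maxHeartbeats 4000000 in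
open Classical in
/-- tuples for several independent random multiples of a small primorial -/
theorem tupleD (r : ℕ) (b : Fin r → ℕ) (κ : Fin r → ℤ) (Cl : Fin r → ℕ → (ℕ → ℝ) → Prop) (hCl : ∀ j, DCls (b j) (κ j) (Cl j))
    (B J A C K₁ : ℕ) (θ : ℝ) (hθ : 0 < θ) (ε : ℝ) (hε : 0 < ε) (hε1 : ε ≤ 1) :
    ∃ X₀ : ℕ, ∀ X : ℕ, X₀ ≤ X → ∀ k : Fin r → ℕ,
    (∀ j, (b j : ℝ) ^ k j ≤ X * Real.log X ^ C ∧ (X : ℝ) ≤ (b j : ℝ) ^ k j * Real.log X ^ C) →
    ∀ p : Fin r → ℕ → ℝ, (∀ j, Cl j (k j) (p j)) →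
    ∀ y : ℕ, θ * Real.log (Real.log X) ≤ y → y ≤ K₁ * Real.log (Real.log X) → ∀ c : Fin r → ℤ, (∀ j, |c j| ≤ B * (b j : ℤ) ^ k j) →
    ∀ h : Fin r → ℕ, (∀ j, 1 ≤ h j ∧ (h j : ℝ) ≤ Real.log X ^ J) →
    ∀ (I : Finset ℕ) (f : Fin r → ℕ → ℕ), (∀ j, Set.InjOn (f j) I) →
    (∀ j, ∀ i ∈ I, 1 ≤ f j i ∧ f j i ≤ X ∧ (f j i).Coprime (primorial y * h j)) → (X : ℝ) ≤ I.card * Real.log X ^ A →
    ∀ σ : Fin r → ℤ, (∀ j, σ j = 1 ∨ σ j = -1) →
    ∑ v ∈ Fintype.piFinset (fun j : Fin r => range (b j ^ k j)),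
      (if (∀ j, ∀ i ∈ I, 0 < Nm y (h j) (c j) (κ j) (v j) + σ j * (f j i : ℕ)) → ∀ t : ℕ, t ≤ r →
        |((I.filter (fun i => ∀ j : Fin r, (j : ℕ) < t → (Nm y (h j) (c j) (κ j) (v j) + σ j * (f j i : ℕ)).toNat.Prime)).card : ℝ) -
          I.card / (Vz y * Real.log X) ^ t| ≤ ε * (I.card / (Vz y * Real.log X) ^ t) then 0 else ∏ j, p j (v j)) ≤ ε := by
  obtain ⟨δ, hδ⟩ : ∃ δ : ℝ, δ = ε / (2 * (r + 1)) := ⟨_, rfl⟩
  have hr0 : (0 : ℝ) ≤ r := Nat.cast_nonneg r
  have hδ0 : 0 < δ := by rw [hδ]; positivity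
  have hrδ : (r + 1 : ℝ) * δ = ε / 2 := by rw [hδ]; field_simp
  have hrδ1 : (r : ℝ) * δ ≤ ε / 2 := by
    have : (r : ℝ) * δ + δ = ε / 2 := by rw [← hrδ]; ring
    linarith
  have hδ1 : δ ≤ 1 := by
    have : δ ≤ ε / 2 := by
      have : (r : ℝ) * δ + δ = ε / 2 := by rw [← hrδ]; ring
      have : 0 ≤ (r : ℝ) * δ := by positivity
      linarith
    linarith
  have h := fun j : Fin r => law3 (hCl j) B J (A + 2 * r + 1) C K₁ θ hθ δ hδ0 hδ1
  choose k₀ hk₀ using h
  obtain ⟨X1, hX1'⟩ := ev_L' 2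
  refine ⟨max (univ.sup k₀) X1, fun X hX k hXk p hp y hy1 hy2 c hc h hh I f hinj hf hIA σ hσ => ?_⟩
  have b1 : ∀ j, k₀ j ≤ X := fun j => (Finset.le_sup (f := k₀) (mem_univ j)).trans ((le_max_left _ _).trans hX)
  have b3 : 2 ≤ Real.log X := hX1' X ((le_max_right _ _).trans hX)
  obtain ⟨L, hL⟩ : ∃ L, L = Real.log X := ⟨_, rfl⟩
  have hk₁ := fun j => hk₀ j X (b1 j)
  rw [← hL] at hy1 hy2 hIA b3 ⊢
  simp only [← hL] at hk₁ hXk hh
  have hk0 : 0 < L := by linarith
  obtain ⟨Q, hQ⟩ : ∃ Q : ℝ, Q = Vz y * L := ⟨_, rfl⟩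
  have hVy := Vz_pos y
  have hQ0 : 0 < Q := by rw [hQ]; exact mul_pos hVy hk0
  have hQk : Q ≤ L ^ 2 := by
    rw [hQ, sq]
    have g2 : Vz y * L ≤ 1 * L := mul_le_mul_of_nonneg_right (Vz_le_one y) hk0.le
    nlinarith
  rw [← hQ]
  obtain ⟨m, hm⟩ : ∃ m : ℝ, m = I.card := ⟨_, rfl⟩
  rw [← hm] at hIA ⊢
  have hm0 : 0 ≤ m := by rw [hm]; exact Nat.cast_nonneg _
  -- the sets
  obtain ⟨It, hIt⟩ : ∃ It : ℕ → (Fin r → ℕ) → Finset ℕ, ∀ t v, It t v =
    I.filter (fun i => ∀ j : Fin r, (j : ℕ) < t → (Nm y (h j) (c j) (κ j) (v j) + σ j * (f j i : ℕ)).toNat.Prime) := ⟨_, fun _ _ => rfl⟩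
  have hIsub : ∀ t v, It t v ⊆ I := fun t v => by rw [hIt]; exact filter_subset _ _
  have hI0 : ∀ v, It 0 v = I := by
    intro v
    rw [hIt]
    apply filter_true_of_mem
    intro i _ j hj
    omega
  have hIs : ∀ (j : Fin r) v, It ((j : ℕ) + 1) v = (It j v).filter (fun i => (Nm y (h j) (c j) (κ j) (v j) + σ j * (f j i : ℕ)).toNat.Prime) := by
    intro j v
    rw [hIt, hIt, filter_filter]
    apply filter_congr
    intro i _
    constructor
    · intro hq
      exact ⟨fun l hl => hq l (by omega), hq j (by omega)⟩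
    · rintro ⟨h1, h2⟩ l hl
      rcases Nat.lt_or_ge l j with h3 | h3
      · exact h1 l h3
      · have : l = j := by
          apply Fin.ext
          omega
        rw [this]
        exact h2
  have hupd : ∀ (j : Fin r) (v : Fin r → ℕ) (w : ℕ), It j (Function.update v j w) = It j v := by
    intro j v w
    rw [hIt, hIt]
    apply filter_congr
    intro i _
    constructor
    · intro hq l hl
      have := hq l hl
      rwa [Function.update_of_ne (by intro h; rw [h] at hl; omega)] at this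
    · intro hq l hl
      rw [Function.update_of_ne (by intro h; rw [h] at hl; omega)]
      exact hq l hl
  -- the bad events
  obtain ⟨Bad, hBad⟩ : ∃ Bad : Fin r → (Fin r → ℕ) → Prop, ∀ j v, Bad j v ↔ (((X : ℝ) ≤ (It j v).card * L ^ (A + 2 * r + 1)) ∧
    (∀ i ∈ It j v, 0 < Nm y (h j) (c j) (κ j) (v j) + σ j * (f j i : ℕ)) ∧ δ * ((It j v).card / Q) <
      |(((It j v).filter (fun i => (Nm y (h j) (c j) (κ j) (v j) + σ j * (f j i : ℕ)).toNat.Prime)).card : ℝ) - (It j v).card / Q|) :=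
    ⟨_, fun _ _ => Iff.rfl⟩
  have hw0 : ∀ v ∈ Fintype.piFinset (fun j : Fin r => range (b j ^ k j)), 0 ≤ ∏ j, p j (v j) := fun v _ =>
    prod_nonneg fun j _ => (hCl j).nonneg _ _ (hp j) _
  have hB : ∀ j ∈ (univ : Finset (Fin r)), ∑ v ∈ Fintype.piFinset (fun j : Fin r => range (b j ^ k j)),
      (if Bad j v then ∏ j, p j (v j) else 0) ≤ δ := by
    intro j _
    apply cond_one (fun j : Fin r => range (b j ^ k j)) p (fun i v _ => (hCl i).nonneg _ _ (hp i) v) (fun i => (hCl i).sum _ _ (hp i)) j (Bad j) δ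
    intro v _
    by_cases hden : (X : ℝ) ≤ (It j v).card * L ^ (A + 2 * r + 1)
    · have hinj' : Set.InjOn (f j) (It j v) := (hinj j).mono (by exact_mod_cast hIsub j v)
      obtain ⟨S, hS⟩ : ∃ S, S = (It j v).image (f j) := ⟨_, rfl⟩
      have hSc : S.card = (It j v).card := by rw [hS]; exact card_image_of_injOn hinj'
      have h1 := hk₁ j (k j) (hXk j).1 (hXk j).2 (p j) (hp j) y hy1 hy2 (c j) (hc j) (h j) (hh j).1 (hh j).2 S (by
        intro s hs
        rw [hS, mem_image] at hs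
        obtain ⟨i, hi, rfl⟩ := hs
        have := hf j i (hIsub j v hi)
        rw [mem_Icc]
        exact ⟨this.1, this.2.1⟩) (by
        intro s hs
        rw [hS, mem_image] at hs
        obtain ⟨i, hi, rfl⟩ := hs
        exact (hf j i (hIsub j v hi)).2.2) (by rw [hSc]; exact hden) (σ j) (hσ j)
      refine le_trans (sum_le_sum fun w _ => ?_) h1
      have hpw := (hCl j).nonneg _ _ (hp j) w
      by_cases hq : Bad j (Function.update v j w)
      · rw [if_pos hq]
        rw [hBad, hupd] at hq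
        simp only [Function.update_self] at hq
        obtain ⟨_, q2, q3⟩ := hq
        rw [if_pos]
        rw [hSc, ← hQ]
        refine ⟨fun s hs => ?_, ?_⟩
        · rw [hS, mem_image] at hs
          obtain ⟨i, hi, rfl⟩ := hs
          exact q2 i hi
        · have e1 : (S.filter (fun s => (((primorial y * h j : ℕ) : ℤ) * (c j + κ j * (w : ℕ)) + σ j * (s : ℕ)).toNat.Prime)).card =
              ((It j v).filter (fun i => (Nm y (h j) (c j) (κ j) w + σ j * (f j i : ℕ)).toNat.Prime)).card := by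
            rw [hS, filter_image, card_image_of_injOn]
            · rfl
            · exact hinj'.mono (by
                intro i hi
                rw [mem_coe, mem_filter] at hi
                exact_mod_cast hi.1)
          rw [e1]
          exact q3
      · rw [if_neg hq]
        split_ifs
        · exact hpw
        · exact le_rfl
    · refine le_trans (le_of_eq ?_) hδ0.le
      apply sum_eq_zero
      intro w _
      rw [if_neg]
      intro hq
      rw [hBad, hupd] at hq
      exact hden hq.1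
  obtain ⟨Qp, hQp⟩ : ∃ Qp : (Fin r → ℕ) → Prop, ∀ v, Qp v ↔ ((∀ j, ∀ i ∈ I, 0 < Nm y (h j) (c j) (κ j) (v j) + σ j * (f j i : ℕ)) → ∀ t : ℕ, t ≤ r →
        |((I.filter (fun i => ∀ j : Fin r, (j : ℕ) < t → (Nm y (h j) (c j) (κ j) (v j) + σ j * (f j i : ℕ)).toNat.Prime)).card : ℝ) -
          m / Q ^ t| ≤ ε * (m / Q ^ t)) := ⟨_, fun _ => Iff.rfl⟩
  have hsub : ∀ v ∈ Fintype.piFinset (fun j : Fin r => range (b j ^ k j)), ¬ Qp v → ∃ j ∈ (univ : Finset (Fin r)), Bad j v := by
    intro v _ hnot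
    by_contra hcon
    push Not at hcon
    apply hnot
    rw [hQp]
    intro hpos t ht
    -- induction
    have key : ∀ t : ℕ, t ≤ r → (1 - δ) ^ t * (m / Q ^ t) ≤ (It t v).card ∧ ((It t v).card : ℝ) ≤ (1 + δ) ^ t * (m / Q ^ t) := by
      intro t
      induction t with
      | zero =>
        intro _
        rw [hI0, ← hm]
        simp
      | succ t ih =>
        intro ht
        obtain ⟨g1, g2⟩ := ih (by omega)
        have hnb := hcon ⟨t, by omega⟩ (mem_univ _)
        rw [hBad] at hnb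
        simp only at hnb
        have hmQ : 0 ≤ m / Q ^ t := by positivity
        have hhalf : 1 / 2 ≤ (1 - δ) ^ t := by
          have q1 := pow_dn t δ hδ0.le hδ1
          have q2 : (t : ℝ) * δ ≤ r * δ := mul_le_mul_of_nonneg_right (by exact_mod_cast (by omega : t ≤ r)) hδ0.le
          linarith
        have hden : (X : ℝ) ≤ (It t v).card * L ^ (A + 2 * r + 1) := by
          have q1 : m / 2 ≤ (It t v).card * L ^ (2 * r) := by
            have q2 : Q ^ t ≤ L ^ (2 * r) := by
              calc Q ^ t ≤ (L ^ 2) ^ t := pow_le_pow_left₀ hQ0.le hQk t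
                _ = L ^ (2 * t) := by rw [← pow_mul]
                _ ≤ _ := pow_le_pow_right₀ (by linarith) (by omega)
            have q3 : 1 / 2 * (m / Q ^ t) ≤ (It t v).card := (mul_le_mul_of_nonneg_right hhalf hmQ).trans g1
            have q4 : 1 / 2 * (m / Q ^ t) * Q ^ t = m / 2 := by field_simp
            rw [← q4]
            exact mul_le_mul q3 q2 (by positivity) (Nat.cast_nonneg _)
          calc (X : ℝ) ≤ m * L ^ A := hIA
            _ = (m / 2) * (L ^ A * 2) := by ring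
            _ ≤ ((It t v).card * L ^ (2 * r)) * (L ^ A * L) := by
                apply mul_le_mul q1 _ (by positivity) (by positivity)
                exact mul_le_mul_of_nonneg_left (by linarith) (by positivity)
            _ = _ := by rw [pow_succ, pow_add]; ring
        have hpos' : ∀ i ∈ It t v, 0 < Nm y (h ⟨t, by omega⟩) (c ⟨t, by omega⟩) (κ ⟨t, by omega⟩) (v ⟨t, by omega⟩) +
            σ ⟨t, by omega⟩ * (f ⟨t, by omega⟩ i : ℕ) := fun i hi => hpos ⟨t, by omega⟩ i (hIsub t v hi)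
        have h5 : |((It (t + 1) v).card : ℝ) - (It t v).card / Q| ≤ δ * ((It t v).card / Q) := by
          by_contra hlt
          push Not at hlt
          apply hnb
          refine ⟨hden, hpos', ?_⟩
          have := hIs ⟨t, by omega⟩ v
          simp only at this
          rw [← this]
          exact hlt
        obtain ⟨h6, h7⟩ := abs_le.1 h5
        have e1 : ∀ a : ℝ, a ^ (t + 1) * (m / Q ^ (t + 1)) = a * ((a ^ t * (m / Q ^ t)) / Q) := by
          intro a
          rw [pow_succ, pow_succ]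
          field_simp
        constructor
        · rw [e1]
          have q1 : (1 - δ) * (((1 - δ) ^ t * (m / Q ^ t)) / Q) ≤ (1 - δ) * ((It t v).card / Q) := by
            apply mul_le_mul_of_nonneg_left _ (by linarith)
            exact div_le_div_of_nonneg_right g1 hQ0.le
          linarith
        · rw [e1]
          have q1 : (1 + δ) * ((It t v).card / Q) ≤ (1 + δ) * (((1 + δ) ^ t * (m / Q ^ t)) / Q) := by
            apply mul_le_mul_of_nonneg_left _ (by linarith)
            exact div_le_div_of_nonneg_right g2 hQ0.le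
          linarith
    obtain ⟨g1, g2⟩ := key t ht
    rw [← hIt]
    have hmQ : 0 ≤ m / Q ^ t := by positivity
    have q2 : (t : ℝ) * δ ≤ ε / 2 := (mul_le_mul_of_nonneg_right (by exact_mod_cast ht) hδ0.le).trans hrδ1
    have q3 := pow_dn t δ hδ0.le hδ1
    have q4 := pow_up t δ hδ0.le (by linarith)
    rw [abs_le]
    constructor
    · have : (1 - ε) * (m / Q ^ t) ≤ (1 - δ) ^ t * (m / Q ^ t) := mul_le_mul_of_nonneg_right (by linarith) hmQ
      linarith
    · have : (1 + δ) ^ t * (m / Q ^ t) ≤ (1 + ε) * (m / Q ^ t) := mul_le_mul_of_nonneg_right (by linarith) hmQ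
      linarith
  have main : ∑ v ∈ Fintype.piFinset (fun j : Fin r => range (b j ^ k j)), (if Qp v then 0 else ∏ j, p j (v j)) ≤ ε := by
    refine (union_gen (Fintype.piFinset (fun j : Fin r => range (b j ^ k j))) (fun v => ∏ j, p j (v j)) hw0 univ Bad Qp hsub δ hB).trans ?_
    rw [card_univ, Fintype.card_fin]
    linarith
  refine le_trans (le_of_eq ?_) main
  apply sum_congr rfl
  intro v _
  by_cases hq : Qp v
  · rw [if_pos hq, if_pos ((hQp v).1 hq)]
  · rw [if_neg hq, if_neg (fun h => hq ((hQp v).2 h))]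

end Pool.Agent.W2helper62.DS
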