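import Pool.Agent.W2helper62.DS.DS5
import Pool.Agent.W2helper30.AN.Tl

set_option autoImplicit false

/-! The values `⌊U f(x0 + 1 / m)⌋` form a class with the law for all the multiples and the sieve law. -/

namespace Pool.Agent.W2helper62.DS
open Finset
open Pool.Agent.H807R2.Dav
open Pool.Agent.N625.PT
open Pool.Agent.W2helper30.AN
open Pool.Agent.Y885 (TLaw Thin Spec)

lemma tl_mono {b c V K : ℕ} (hb : 1 ≤ b) {ι : Type} {Ω : Finset ι} {p : ι → ℝ} {Y : ι → ℤ} (h : TLaw b 3 c V K Ω p Y) :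
    TLaw b 15 c V K Ω p Y := by
  refine ⟨h.nonneg, h.le_one, h.thin.lt, fun i hi => ?_, fun j x hj => ?_, ?_⟩
  · refine le_trans (Nat.mul_le_mul_left _ (Nat.pow_le_pow_right hb (Nat.div_le_div_left (by norm_num) (by norm_num)))) (h.thin.bot i hi)
  · refine le_trans (Nat.mul_le_mul_left _ (Nat.pow_le_pow_right hb (Nat.div_le_div_left (by norm_num) (by norm_num)))) (h.thin.top j x hj)
  · refine le_trans (Nat.mul_le_mul_left _ (Nat.pow_le_pow_right hb (Nat.div_le_div_left (by norm_num) (by norm_num)))) h.thin.all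

/-- the law for all the multiples -/
theorem AC_tcls {f : ℝ → ℝ} {x0 : ℝ} {k0 : ℕ} (hf : Ord f x0 k0) (δ0 ε : ℝ) (hδ0 : 0 < δ0)
    (hε : 0 < ε) (hε2 : ε < 1 / 2) (a : ℕ) (κ : ℤ) (hκ : κ ≠ 0) : TCls 2 κ (AC f x0 k0 δ0 ε a) := by
  refine ⟨le_rfl, hκ, fun k p hp v => AC_nonneg hp v, fun k p hp => AC_sum hp, 1, le_rfl, fun W V => ?_⟩
  obtain ⟨C₀, m₀, h⟩ := AC_tlaw hf δ0 ε hδ0 hε hε2 a κ hκ (W + 1) V
  refine ⟨C₀, m₀ + 3, fun m hm e he h' hh1 hh2 p hp cc => ?_⟩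
  have hm3 : (3 : ℝ) ≤ m := by exact_mod_cast (by omega : 3 ≤ m)
  have hm0 : (0 : ℝ) < m := by linarith
  have hlm : 0 ≤ Real.log m := Real.log_nonneg (by linarith)
  have g1 : (2 : ℝ) ^ e ≤ (m : ℝ) ^ W := by
    rw [← Real.log_le_log_iff (by positivity) (by positivity), Real.log_pow, Real.log_pow]
    have h2 := Real.log_two_lt_d9
    have h3 : (0 : ℝ) ≤ e := Nat.cast_nonneg _
    nlinarith [Real.log_two_gt_d9]
  have g1n : 2 ^ e ≤ m ^ W := by exact_mod_cast g1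
  have g2 : 2 ^ e ≤ m ^ (W + 1) := g1n.trans (Nat.pow_le_pow_right (by omega) (by omega))
  have g3 : h' ≤ m ^ (W + 1) := by
    rw [one_mul] at hh2
    have h4 : h' < 2 ^ (e + 1) := (Nat.lt_pow_succ_log_self (by norm_num) h').trans_le (Nat.pow_le_pow_right (by norm_num) (by omega))
    calc h' ≤ 2 ^ (e + 1) := h4.le
      _ = 2 ^ e * 2 := pow_succ _ _
      _ ≤ m ^ W * m := Nat.mul_le_mul g1n (by omega)
      _ = m ^ (W + 1) := (pow_succ _ _).symm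
  exact tl_mono (by norm_num) (h m (by omega) p hp e h' g2 hh1 g3 cc (m + e) rfl)

/-- the sums at the rational numbers -/
theorem AC_rat {f : ℝ → ℝ} {x0 : ℝ} {k0 : ℕ} (hf : Ord f x0 k0) (δ0 ε : ℝ) (hδ0 : 0 < δ0)
    (hε : 0 < ε) (hε2 : ε < 1 / 2) (a : ℕ) : RatLaw 2 (AC f x0 k0 δ0 ε a) := by
  intro D
  obtain ⟨c, hc, N0, hN0⟩ := floor_f hf δ0 ε hδ0 hε hε2
  obtain ⟨C, hC, hsz⟩ := par_sizes hf δ0 ε hδ0 hε hε2 a
  have hk0 := hf.2.1
  -- the size of the saving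
  obtain ⟨x1, hx1⟩ := Filter.eventually_atTop.1 ((tendsto_rpow_atTop (show (0 : ℝ) < 2 * ε by positivity)).eventually_ge_atTop 1)
  obtain ⟨m₀, hm₀⟩ := hsz (N0 + 3) 0
  obtain ⟨E, hE⟩ : ∃ E : ℝ, E = |D| + 8 := ⟨_, rfl⟩
  have hE0 : 0 < E := by rw [hE]; positivity
  have hev : ∃ m₁ : ℕ, ∀ m : ℕ, m₁ ≤ m → E * Real.log m ^ 2 ≤ c * (m / C) ^ (4 / 3 * ε) ∧ 1 ≤ Real.log m ∧ C ≤ m := by
    have h1 : Filter.Tendsto (fun m : ℕ => (m : ℝ) / C) Filter.atTop Filter.atTop :=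
      (tendsto_natCast_atTop_atTop (R := ℝ)).atTop_div_const (by linarith)
    have h2 := isLittleO_log_rpow_rpow_atTop (r := 2) (s := 4 / 3 * ε) (hs := by positivity) |>.bound
      (show (0 : ℝ) < c / (4 * E) by positivity)
    have h3 := h1.eventually h2
    have h4 : ∀ᶠ m : ℕ in Filter.atTop, C ^ 2 + 3 ≤ (m : ℝ) :=
      (tendsto_natCast_atTop_atTop (R := ℝ)).eventually_ge_atTop _
    obtain ⟨m₁, hm₁⟩ := Filter.eventually_atTop.1 (h3.and h4)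
    refine ⟨m₁, fun m hm => ?_⟩
    obtain ⟨h5, h6⟩ := hm₁ m hm
    have hC2 : C ≤ C ^ 2 := by nlinarith
    have hm3 : (3 : ℝ) ≤ m := by nlinarith
    have hmC : C ≤ m := by linarith
    have hmC0 : 0 < (m : ℝ) / C := by positivity
    have hmC1 : C ≤ (m : ℝ) / C := by
      rw [le_div_iff₀ (by linarith)]
      nlinarith
    refine ⟨?_, ?_, hmC⟩
    · have hl0 : 0 ≤ Real.log ((m : ℝ) / C) := Real.log_nonneg (by linarith)
      rw [Real.norm_of_nonneg (Real.rpow_nonneg hl0 _), Real.norm_of_nonneg (Real.rpow_nonneg hmC0.le _)] at h5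
      have h7 : Real.log m ≤ 2 * Real.log ((m : ℝ) / C) := by
        have h8 : (m : ℝ) ≤ ((m : ℝ) / C) ^ 2 := by
          rw [div_pow, le_div_iff₀ (by positivity)]
          nlinarith
        have h9 := Real.log_le_log (by linarith) h8
        rw [Real.log_pow] at h9
        exact_mod_cast h9
      have h10 : 0 ≤ Real.log m := Real.log_nonneg (by linarith)
      have h11 : Real.log m ^ 2 ≤ 4 * Real.log ((m : ℝ) / C) ^ 2 := by nlinarith
      have h12 : Real.log ((m : ℝ) / C) ^ (2 : ℝ) = Real.log ((m : ℝ) / C) ^ 2 := by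
        rw [← Real.rpow_natCast]
        norm_num
      rw [h12] at h5
      calc E * Real.log m ^ 2 ≤ E * (4 * Real.log ((m : ℝ) / C) ^ 2) := mul_le_mul_of_nonneg_left h11 hE0.le
        _ ≤ E * (4 * (c / (4 * E) * (m / C) ^ (4 / 3 * ε))) := by
            apply mul_le_mul_of_nonneg_left _ hE0.le
            linarith
        _ = c * (m / C) ^ (4 / 3 * ε) := by field_simp
    · rw [Real.le_log_iff_exp_le (by linarith)]
      linarith [Real.exp_one_lt_d9]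
  obtain ⟨m₁, hm₁⟩ := hev
  refine ⟨m₀ + m₁ + 3, fun m hm p hp d hd a' ha1 ha2 => ?_⟩
  obtain ⟨hbig, hlm1, hCm⟩ := hm₁ m (by omega)
  obtain ⟨M, U, s, hpar, hpv⟩ := hp
  obtain ⟨hxX, -, hs1, hs2⟩ := hm₀ m (by omega) M U s hpar
  have hM0 : (0 : ℝ) < M := by exact_mod_cast hpar.one
  have hM2 : 2 ≤ M := by omega
  have hU0 : 0 < U := lt_of_lt_of_le (by positivity) hpar.rg.lo
  have hC0 : 0 < C := by linarith
  have hlU : (m : ℝ) / C ≤ Real.log U := by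
    rw [div_le_iff₀ hC0]
    linarith
  have hmC0 : 0 < (m : ℝ) / C := by
    have : (0 : ℝ) < m := by linarith
    positivity
  have hlU0 : 0 < Real.log U := by linarith
  have hlM0 : 0 < Real.log (M : ℝ) := Real.log_pos (by exact_mod_cast (by omega : 1 < M))
  -- the saving
  have hSv : c * (m / C) ^ (4 / 3 * ε) ≤ c * Sv M U := by
    apply mul_le_mul_of_nonneg_left _ hc.le
    refine le_trans ?_ (hpar.rg.sv_ge hk0 hδ0 hM2)
    have h1 : Real.log U ≤ Real.log (M : ℝ) ^ (3 / 2 - ε) := by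
      rw [Real.log_le_iff_le_exp hU0]
      exact hpar.rg.hi
    have hlM1 : 1 ≤ Real.log (M : ℝ) := by
      rw [Real.le_log_iff_exp_le hM0]
      have : (3 : ℝ) ≤ M := by exact_mod_cast (by omega : 3 ≤ M)
      linarith [Real.exp_one_lt_d9]
    have h2 : Real.log (M : ℝ) ^ (3 / 2 - ε) ≤ Real.log (M : ℝ) ^ ((3 : ℝ) / 2) :=
      Real.rpow_le_rpow_of_exponent_le hlM1 (by linarith)
    have h3 : (m : ℝ) / C ≤ Real.log (M : ℝ) ^ ((3 : ℝ) / 2) := hlU.trans (h1.trans h2)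
    calc ((m : ℝ) / C) ^ (4 / 3 * ε) ≤ (Real.log (M : ℝ) ^ ((3 : ℝ) / 2)) ^ (4 / 3 * ε) :=
          Real.rpow_le_rpow hmC0.le h3 (by positivity)
      _ = Real.log (M : ℝ) ^ (2 * ε) := by
          rw [← Real.rpow_mul hlM0.le]
          congr 1
          ring
  have hEs : (|D| + 8) * Real.log m ^ 2 ≤ c * Sv M U := by
    rw [← hE]
    exact hbig.trans hSv
  have hℓ1 : 1 ≤ Real.log (m : ℝ) ^ 2 := one_le_pow₀ hlm1
  have hd1 : 1 ≤ d := by omega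
  have hd0 : (0 : ℝ) < d := by exact_mod_cast hd1
  -- the frequency
  obtain ⟨θ0, hθ0⟩ : ∃ θ0 : ℝ, θ0 = (a' : ℝ) / d := ⟨_, rfl⟩
  obtain ⟨q0, hq0⟩ : ∃ q0 : ℤ, q0 = round (((1 : ℤ) : ℝ) * θ0) := ⟨_, rfl⟩
  obtain ⟨θ, hθ⟩ : ∃ θ : ℝ, θ = ((1 : ℤ) : ℝ) * θ0 - q0 := ⟨_, rfl⟩
  have hθ2 : |θ| ≤ 1 / 2 := by rw [hθ, hq0]; exact abs_sub_round _
  have hθd : 1 / (d : ℝ) ≤ |θ| := by
    have h1 := nn_rat (a' : ℤ) d hd1 (by
      intro hdv
      have h2 : d ∣ a' := by exact_mod_cast hdv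
      have := Nat.le_of_dvd (by omega) h2
      omega)
    unfold Pool.Agent.Y958.SP.nn at h1
    rw [hθ, hq0, hθ0]
    push_cast
    push_cast at h1
    rw [one_mul]
    exact h1
  have hexp1 : Real.exp (-(c * Sv M U)) ≤ Real.exp (-(D * Real.log m ^ 2)) * Real.exp (-8) := by
    rw [← Real.exp_add]
    apply Real.exp_le_exp.2
    have h1 : D * Real.log m ^ 2 ≤ |D| * Real.log m ^ 2 := mul_le_mul_of_nonneg_right (le_abs_self D) (by positivity)
    nlinarith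
  have h8 : Real.exp (-8) * 1042 ≤ 1 := by
    rw [Real.exp_neg, inv_mul_le_iff₀ (Real.exp_pos 8), mul_one]
    have h1 : (2.7 : ℝ) ^ 8 ≤ Real.exp 1 ^ 8 := pow_le_pow_left₀ (by norm_num) (by linarith [Real.exp_one_gt_d9]) 8
    rw [← Real.exp_nat_mul] at h1
    norm_num at h1 ⊢
    linarith
  have hpos1 := Real.exp_pos (-(D * Real.log m ^ 2))
  have hpos8 := Real.exp_pos (-8)
  have hsmall : Real.exp (-(c * Sv M U)) ≤ |θ| := by
    refine le_trans ?_ hθd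
    have h1 : Real.exp (-(c * Sv M U)) ≤ Real.exp (-(D * Real.log m ^ 2)) := by nlinarith
    refine h1.trans ?_
    rw [Real.exp_neg, ← one_div]
    exact one_div_le_one_div_of_le hd0 hd
  have hmain := hN0 M (by omega) U hpar.rg θ hθ2 hsmall
  have hch := AC_char hpar p hpv 1 0 q0 θ0 (fun v => (v : ℕ)) (fun v => by ring)
  rw [← hθ] at hch
  have e1 : ∑ v ∈ range (2 ^ m), (p v : ℂ) * ee (v * ((a' : ℝ) / d)) =
      ∑ v ∈ range (2 ^ m), ((p v : ℝ) : ℂ) * ee ((((v : ℕ) : ℤ) : ℝ) * θ0) := by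
    apply sum_congr rfl
    intro v _
    rw [hθ0]
    push_cast
    rfl
  rw [e1, hch]
  calc 1 / (M : ℝ) * ‖∑ i ∈ Finset.Ioc M (2 * M), Pool.Agent.Y933.KD.e (θ * ⌊U * f (x0 + 1 / i)⌋)‖ ≤
      1 / (M : ℝ) * (1042 * (M * Real.exp (-(c * Sv M U)))) := mul_le_mul_of_nonneg_left hmain (by positivity)
    _ = 1042 * Real.exp (-(c * Sv M U)) := by field_simp
    _ ≤ 1042 * (Real.exp (-(D * Real.log m ^ 2)) * Real.exp (-8)) := mul_le_mul_of_nonneg_left hexp1 (by norm_num)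
    _ = Real.exp (-(D * Real.log m ^ 2)) * (Real.exp (-8) * 1042) := by ring
    _ ≤ Real.exp (-(D * Real.log m ^ 2)) * 1 := mul_le_mul_of_nonneg_left h8 hpos1.le
    _ = _ := mul_one _

/-- the class -/
theorem AC_dcls {f : ℝ → ℝ} {x0 : ℝ} {k0 : ℕ} (hf : Ord f x0 k0) (δ0 ε : ℝ) (hδ0 : 0 < δ0)
    (hε : 0 < ε) (hε2 : ε < 1 / 2) (a : ℕ) (κ : ℤ) (hκ : κ ≠ 0) : DCls 2 κ (AC f x0 k0 δ0 ε a) := by
  have h := AC_tcls hf δ0 ε hδ0 hε hε2 a κ hκ
  exact ⟨h, ⟨0, sieve_of_rat le_rfl h.nonneg h.sum (AC_rat hf δ0 ε hδ0 hε hε2 a)⟩⟩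

end Pool.Agent.W2helper62.DS
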