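import Pool.Agent.W2helper62.DS.DS4
import Pool.Agent.W2helper62.DS.DS6
import Pool.Agent.W2helper30.AN.Tup

set_option autoImplicit false

/-! Multiples of a small primorial near the values `⌊U f(x0 + 1 / m)⌋`, several families, with arbitrary dense sets. -/

namespace Pool.Agent.W2helper62.DS
open Finset
open Pool.Agent.H373R2.T7 (Vz Vz_pos Vz_le_one ev_L')
open Pool.Agent.N625.PT
open Pool.Agent.W2helper30.AN

open Classical in
/-- from products of distributions to numbers -/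
lemma count_tuple {r : ℕ} (M K : Fin r → ℕ) (sg : Fin r → ℕ → ℕ) (hM : ∀ j, ∀ i ∈ Ioc (M j) (2 * M j), sg j i < K j)
    (p : Fin r → ℕ → ℝ) (hp : ∀ j v, p j v = (((Ioc (M j) (2 * M j)).filter (fun i => sg j i = v)).card : ℝ) / M j)
    (g : (Fin r → ℕ) → ℝ) :
    ∑ v ∈ Fintype.piFinset (fun j => range (K j)), (∏ j, p j (v j)) * g v =
      (∑ i ∈ Fintype.piFinset (fun j => Ioc (M j) (2 * M j)), g (fun j => sg j (i j))) / ∏ j, (M j : ℝ) := by
  have h1 : ∀ v : Fin r → ℕ, ∏ j, p j (v j) = (∑ i ∈ Fintype.piFinset (fun j => Ioc (M j) (2 * M j)),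
      (if (fun j => sg j (i j)) = v then (1 : ℝ) else 0)) / ∏ j, (M j : ℝ) := by
    intro v
    have h2 : ∀ j, p j (v j) = (∑ i ∈ Ioc (M j) (2 * M j), (if sg j i = v j then (1 : ℝ) else 0)) / M j := by
      intro j
      rw [hp, sum_boole]
    simp_rw [h2]
    rw [prod_div_distrib, prod_univ_sum]
    congr 1
    apply sum_congr rfl
    intro i _
    rw [prod_ite_zero]
    simp only [prod_const_one, funext_iff, mem_univ, forall_true_left]
  simp_rw [h1, div_mul_eq_mul_div]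
  rw [← sum_div]
  congr 1
  simp_rw [sum_mul]
  rw [sum_comm]
  apply sum_congr rfl
  intro i hi
  have hmem : (fun j => sg j (i j)) ∈ Fintype.piFinset (fun j => range (K j)) := by
    rw [Fintype.mem_piFinset] at hi ⊢
    intro j
    exact mem_range.2 (hM j (i j) (hi j))
  simp_rw [ite_mul, one_mul, zero_mul]
  rw [sum_ite_eq, if_pos hmem]

/-- sizes at a given scale -/
lemma scale_ev (q D : ℝ) (hq : 1 ≤ q) (hD : 1 ≤ D) (C a : ℕ) : ∃ X₀ : ℕ, ∀ X : ℕ, X₀ ≤ X → ∀ R L : ℝ, 1 ≤ R → L ≤ q * Real.log R →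
    1 ≤ L → R ≤ X * Real.log X ^ C → 4 * D * (R * L ^ a) ≤ X * Real.log X ^ (C + a + 1) := by
  obtain ⟨X₀, hX₀⟩ := ev_L' (4 * D * (2 * q) ^ a + 3)
  obtain ⟨x1, hx1⟩ := Filter.eventually_atTop.1 (Real.isLittleO_log_id_atTop.bound (show (0 : ℝ) < 1 / (C + 1) by positivity))
  obtain ⟨X₁, hX₁⟩ := ev_L' x1
  refine ⟨max (max X₀ X₁) 2, fun X hX R L hR hL hL1 hRX => ?_⟩
  have h1 := hX₀ X (by omega)
  have h2 := hX₁ X (by omega)
  obtain ⟨l, hl⟩ : ∃ l, l = Real.log X := ⟨_, rfl⟩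
  rw [← hl] at h1 h2 hRX ⊢
  have hX0 : (0 : ℝ) < X := by exact_mod_cast (by omega : 0 < X)
  have hp : 0 < 4 * D * (2 * q) ^ a := by positivity
  have hl3 : 3 ≤ l := by linarith
  have hl0 : 0 < l := by linarith
  have hlog : C * Real.log l ≤ l := by
    have h4 := hx1 l h2
    simp only [id] at h4
    rw [Real.norm_of_nonneg (Real.log_nonneg (by linarith)), Real.norm_of_nonneg hl0.le] at h4
    have hC0 : (0 : ℝ) ≤ C := Nat.cast_nonneg _
    have h5 : (C : ℝ) * (1 / (C + 1) * l) ≤ l := by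
      have : (C : ℝ) * (1 / (C + 1) * l) = (C / (C + 1)) * l := by ring
      rw [this]
      apply mul_le_of_le_one_left hl0.le
      rw [div_le_one (by positivity)]
      linarith
    exact (mul_le_mul_of_nonneg_left h4 hC0).trans h5
  have hlR : Real.log R ≤ 2 * l := by
    have h3 := Real.log_le_log (by linarith) hRX
    rw [Real.log_mul hX0.ne' (by positivity), Real.log_pow, ← hl] at h3
    linarith
  have hLl : L ≤ 2 * q * l := by
    have := mul_le_mul_of_nonneg_left hlR (by linarith : 0 ≤ q)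
    linarith
  have hLa : L ^ a ≤ (2 * q) ^ a * l ^ a := by
    rw [← mul_pow]
    exact pow_le_pow_left₀ (by linarith) hLl a
  calc 4 * D * (R * L ^ a) ≤ 4 * D * ((X * l ^ C) * ((2 * q) ^ a * l ^ a)) := by
        apply mul_le_mul_of_nonneg_left _ (by linarith)
        exact mul_le_mul hRX hLa (by positivity) (by positivity)
    _ = (4 * D * (2 * q) ^ a) * (X * l ^ (C + a)) := by rw [pow_add]; ring
    _ ≤ l * (X * l ^ (C + a)) := mul_le_mul_of_nonneg_right (by linarith) (by positivity)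
    _ = _ := by rw [pow_succ]; ring

set_option maxHeartbeats 2000000 in
open Classical in
/-- the theorem for the families -/
theorem ac_tuple (r : ℕ) (f : Fin r → ℝ → ℝ) (x0 : Fin r → ℝ) (k0 : Fin r → ℕ) (hf : ∀ j, Ord (f j) (x0 j) (k0 j)) (δ0 ε0 : ℝ)
    (hδ0 : 0 < δ0) (hε0 : 0 < ε0) (hε02 : ε0 < 1 / 2) (κ : Fin r → ℤ) (hκ : ∀ j, κ j ≠ 0) (a J A C K₁ : ℕ) (θ : ℝ) (hθ : 0 < θ)
    (ε : ℝ) (hε : 0 < ε) (hε1 : ε ≤ 1) : ∃ N₀ : ℕ, ∀ X : ℕ, N₀ ≤ X → ∀ M : Fin r → ℕ, (∀ j, N₀ ≤ M j) → ∀ U : Fin r → ℝ,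
    (∀ j, Rg (k0 j) δ0 ε0 (M j) (U j)) →
    (∀ j, U j / (M j : ℝ) ^ k0 j ≤ X * Real.log X ^ C ∧ (X : ℝ) ≤ U j / (M j : ℝ) ^ k0 j * Real.log X ^ C) →
    ∀ y : ℕ, θ * Real.log (Real.log X) ≤ y → y ≤ K₁ * Real.log (Real.log X) →
    ∀ c : Fin r → ℤ, (∀ j, |(c j : ℝ) + κ j * (U j * f j (x0 j))| ≤ U j / (M j : ℝ) ^ k0 j * Real.log (U j) ^ a) →
    ∀ h : Fin r → ℕ, (∀ j, 1 ≤ h j ∧ (h j : ℝ) ≤ Real.log X ^ J) →
    ∀ (I : Finset ℕ) (g : Fin r → ℕ → ℕ), (∀ j, Set.InjOn (g j) I) →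
    (∀ j, ∀ i ∈ I, 1 ≤ g j i ∧ g j i ≤ X ∧ (g j i).Coprime (primorial y * h j)) → (X : ℝ) ≤ I.card * Real.log X ^ A →
    ∀ σ : Fin r → ℤ, (∀ j, σ j = 1 ∨ σ j = -1) →
    (((Fintype.piFinset (fun j : Fin r => Ioc (M j) (2 * M j))).filter (fun m => ¬
      ((∀ j, ∀ i ∈ I, 0 < ((primorial y * h j : ℕ) : ℤ) * (c j + κ j * vl (f j) (x0 j) (U j) (m j)) + σ j * (g j i : ℕ)) →
        ∀ t : ℕ, t ≤ r → |((I.filter (fun i => ∀ j : Fin r, (j : ℕ) < t →
          (((primorial y * h j : ℕ) : ℤ) * (c j + κ j * vl (f j) (x0 j) (U j) (m j)) + σ j * (g j i : ℕ)).toNat.Prime)).card : ℝ) -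
          I.card / (Vz y * Real.log X) ^ t| ≤ ε * (I.card / (Vz y * Real.log X) ^ t)))).card : ℝ) ≤ ε * ∏ j, (M j : ℝ) := by
  have hd := fun j => dig_n (hf j) δ0 ε0 hδ0 (a + 1) 1 (κ j)
  choose CC D hCC hD hdig using hd
  obtain ⟨q, hq⟩ : ∃ q : Fin r → ℝ, ∀ j, q j = ((k0 j : ℝ) + δ0) / δ0 := ⟨_, fun _ => rfl⟩
  have hq1 : ∀ j, 1 ≤ q j := fun j => by
    rw [hq, le_div_iff₀ hδ0]
    have : (0 : ℝ) ≤ k0 j := Nat.cast_nonneg _
    linarith
  obtain ⟨X₀, hX₀⟩ := tupleD r (fun _ => 2) κ (fun j => AC (f j) (x0 j) (k0 j) δ0 ε0 (a + 1 + 2))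
    (fun j => AC_dcls (hf j) δ0 ε0 hδ0 hε0 hε02 (a + 1 + 2) (κ j) (hκ j)) 1 J A (C + a + 1) K₁ θ hθ ε hε hε1
  choose X₁ hX₁ using fun j => scale_ev (q j) (D j) (hq1 j) (by exact_mod_cast hD j) C a
  choose M₀ hM₀ using fun j => hdig j 0
  obtain ⟨X₂, hX₂⟩ := ev_L' 3
  obtain ⟨M₃, hM₃⟩ := ev_L' 3
  refine ⟨max (max X₀ (univ.sup X₁)) (max (max X₂ M₃) (max (univ.sup M₀) 2)), fun X hX M hM U hU hR y hy1 hy2 c hc h hh I g hinj hg hIA σ hσ => ?_⟩
  have b1 : X₀ ≤ X := by omega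
  have b2 : ∀ j, X₁ j ≤ X := fun j => (Finset.le_sup (f := X₁) (mem_univ j)).trans (by omega)
  have b3 : ∀ j, M₀ j ≤ M j := fun j => (Finset.le_sup (f := M₀) (mem_univ j)).trans (by have := hM j; omega)
  have b4 := hX₂ X (by omega)
  have hlX0 : 0 < Real.log X := by linarith
  have hX0 : (0 : ℝ) < X := by exact_mod_cast (by omega : 0 < X)
  -- the digits
  have hdd : ∀ j, ∃ (k : ℕ) (s : ℤ), ((2 : ℝ) ^ k ≤ X * Real.log X ^ (C + a + 1) ∧ (X : ℝ) ≤ 2 ^ k * Real.log X ^ (C + a + 1)) ∧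
      Par (f j) (x0 j) (k0 j) δ0 ε0 (a + 1 + 2) k (M j) (U j) s ∧ |c j - κ j * s| ≤ (2 : ℤ) ^ k := by
    intro j
    have hk0 := (hf j).2.1
    have hMj1 : 1 ≤ M j := by have := hM j; omega
    obtain ⟨hR1, hlR⟩ := (hU j).log_R hk0 hδ0 hMj1
    have hlU := (hU j).log_le hk0 hδ0 hMj1
    have hlM := hM₃ (M j) (by have := hM j; omega)
    have hL3 : 3 ≤ Real.log (U j) := hlM.trans hlU
    obtain ⟨R, hRd⟩ : ∃ R : ℝ, R = U j / (M j : ℝ) ^ k0 j := ⟨_, rfl⟩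
    obtain ⟨L, hL⟩ : ∃ L : ℝ, L = Real.log (U j) := ⟨_, rfl⟩
    have hRj := hR j
    have hcj := hc j
    rw [← hRd] at hR1 hlR hRj hcj
    rw [← hL] at hL3 hlR hcj
    rw [← hq] at hlR
    have hLa : 1 ≤ L ^ a := one_le_pow₀ (by linarith)
    have hRL : 1 ≤ R * L ^ a := one_le_mul_of_one_le_of_one_le hR1 hLa
    obtain ⟨N, hN⟩ : ∃ N : ℕ, N = ⌈R * L ^ a⌉₊ := ⟨_, rfl⟩
    have hN1 : R * L ^ a ≤ N := by rw [hN]; exact Nat.le_ceil _
    have hN2 : (N : ℝ) ≤ 2 * (R * L ^ a) := by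
      have : (N : ℝ) < R * L ^ a + 1 := by rw [hN]; exact Nat.ceil_lt_add_one (by linarith)
      linarith
    have hRN : R ≤ N := (le_mul_of_one_le_right (by linarith) hLa).trans hN1
    obtain ⟨k, s, -, -, -, g1, g2, hpar, hcs⟩ := hM₀ j (M j) (b3 j) (U j) (hU j) N (by
      rw [← hRd]
      push_cast
      linarith) (by
      rw [← hRd, ← hL, pow_succ]
      calc (N : ℝ) ≤ 2 * (R * L ^ a) := hN2
        _ ≤ L * (R * L ^ a) := mul_le_mul_of_nonneg_right (by linarith) (by linarith)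
        _ = R * (L ^ a * L) := by ring)
    refine ⟨k, s, ⟨?_, ?_⟩, hpar, ?_⟩
    · have h1 := hX₁ j X (b2 j) R L hR1 hlR (by linarith) hRj.1
      have h2 : (2 : ℝ) ^ k ≤ 2 * (D j * N) := by exact_mod_cast g2
      have hDj : (1 : ℝ) ≤ D j := by exact_mod_cast hD j
      have h3 : (D j : ℝ) * N ≤ D j * (2 * (R * L ^ a)) := mul_le_mul_of_nonneg_left hN2 (by linarith)
      linarith
    · have h2 : (N : ℝ) ≤ 2 ^ k := by
        have h3 : N ≤ D j * N := Nat.le_mul_of_pos_left _ (hD j)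
        have h4 : N ≤ 2 ^ k := by omega
        exact_mod_cast h4
      refine hRj.2.trans ?_
      have h5 : Real.log X ^ C ≤ Real.log X ^ (C + a + 1) := pow_le_pow_right₀ (by linarith) (by omega)
      exact mul_le_mul (hRN.trans h2) h5 (by positivity) (by positivity)
    · apply hcs
      push_cast
      linarith
  choose k s hks hpar hcs using hdd
  obtain ⟨p, hp⟩ : ∃ p : Fin r → ℕ → ℝ, ∀ j v, p j v = (((Ioc (M j) (2 * M j)).filter (fun i => sh (f j) (x0 j) (U j) (s j) i = v)).card : ℝ) / M j :=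
    ⟨fun j v => (((Ioc (M j) (2 * M j)).filter (fun i => sh (f j) (x0 j) (U j) (s j) i = v)).card : ℝ) / M j, fun _ _ => rfl⟩
  have h1 := hX₀ X b1 k (fun j => by
    have := hks j
    push_cast
    exact this) p (fun j => ⟨M j, U j, s j, hpar j, hp j⟩) y hy1 hy2
    (fun j => c j - κ j * s j) (fun j => by
      have := hcs j
      push_cast
      rw [one_mul]
      exact this) h hh I g hinj hg hIA σ hσ
  obtain ⟨G, hG⟩ : ∃ G : (Fin r → ℤ) → Prop, ∀ w, G w ↔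
      ((∀ j, ∀ i ∈ I, 0 < ((primorial y * h j : ℕ) : ℤ) * w j + σ j * (g j i : ℕ)) →
        ∀ t : ℕ, t ≤ r → |((I.filter (fun i => ∀ j : Fin r, (j : ℕ) < t →
          (((primorial y * h j : ℕ) : ℤ) * w j + σ j * (g j i : ℕ)).toNat.Prime)).card : ℝ) -
          I.card / (Vz y * Real.log X) ^ t| ≤ ε * (I.card / (Vz y * Real.log X) ^ t)) := ⟨_, fun _ => Iff.rfl⟩
  have h2 : ∑ v ∈ Fintype.piFinset (fun j : Fin r => range (2 ^ k j)),
      (∏ j, p j (v j)) * (if G (fun j => (c j - κ j * s j) + κ j * (v j : ℕ)) then (0 : ℝ) else 1) ≤ ε := by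
    refine le_trans (le_of_eq ?_) h1
    apply sum_congr rfl
    intro v _
    have e1 : G (fun j => (c j - κ j * s j) + κ j * (v j : ℕ)) ↔
      ((∀ j, ∀ i ∈ I, 0 < Nm y (h j) (c j - κ j * s j) (κ j) (v j) + σ j * (g j i : ℕ)) → ∀ t : ℕ, t ≤ r →
        |((I.filter (fun i => ∀ j : Fin r, (j : ℕ) < t → (Nm y (h j) (c j - κ j * s j) (κ j) (v j) + σ j * (g j i : ℕ)).toNat.Prime)).card : ℝ) -
          I.card / (Vz y * Real.log X) ^ t| ≤ ε * (I.card / (Vz y * Real.log X) ^ t)) := by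
      rw [hG]
      exact Iff.rfl
    by_cases hq : G (fun j => (c j - κ j * s j) + κ j * (v j : ℕ))
    · rw [if_pos hq, if_pos (e1.1 hq), mul_zero]
    · rw [if_neg hq, if_neg (fun h => hq (e1.2 h)), mul_one]
  rw [count_tuple M (fun j => 2 ^ k j) (fun j => sh (f j) (x0 j) (U j) (s j)) (fun j i hi => (hpar j).sh_lt i hi) p hp] at h2
  have hMpos : 0 < ∏ j, (M j : ℝ) := prod_pos fun j _ => by
    have : 0 < M j := by have := hM j; omega
    exact_mod_cast this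
  rw [div_le_iff₀ hMpos] at h2
  refine le_trans (le_of_eq ?_) h2
  rw [card_filter, Nat.cast_sum]
  apply sum_congr rfl
  intro m hm
  rw [Fintype.mem_piFinset] at hm
  have e2 : (fun j => (c j - κ j * s j) + κ j * ((sh (f j) (x0 j) (U j) (s j) (m j) : ℕ) : ℤ)) =
      fun j => c j + κ j * vl (f j) (x0 j) (U j) (m j) := by
    funext j
    rw [(hpar j).sh_eq (m j) (hm j)]
    ring
  rw [e2]
  by_cases hq : G (fun j => c j + κ j * vl (f j) (x0 j) (U j) (m j))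
  · rw [if_pos hq, if_neg (not_not.2 ((hG _).1 hq)), Nat.cast_zero]
  · rw [if_neg hq, if_pos (fun h => hq ((hG _).2 h)), Nat.cast_one]

end Pool.Agent.W2helper62.DS
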