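import Pool.Agent.W2helper62.DS.DS7
import Pool.Agent.N625.PT.X13

set_option autoImplicit false

/-! Multiples of a small primorial near the values `⌊U f(x0 + 1 / m)⌋`: arbitrary dense sets of primes. -/

namespace Pool.Agent.W2helper62.DS
open Finset
open Pool.Agent.H373R2.T7 (Vz Vz_pos Vz_le_one ev_L')
open Pool.Agent.N625.PT
open Pool.Agent.W2helper30.AN

/-- dense sets beat powers of the logarithm -/
lemma big_enoughL (A U : ℕ) (ε : ℝ) (hε : 0 < ε) : ∃ X₀ : ℕ, ∀ X : ℕ, X₀ ≤ X → ∀ m : ℝ, (X : ℝ) ≤ m * Real.log X ^ A →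
    4 * Real.log X ^ U ≤ ε * m := by
  obtain ⟨x1, hx1⟩ := Pool.Agent.H373R2.T7.ev_log' (U + A) (4 / ε)
  obtain ⟨x2, hx2⟩ := ev_L' 1
  refine ⟨max (max x1 x2) 1, fun X hX m hXA => ?_⟩
  have h1 := hx1 X (by omega)
  have h2 := hx2 X (by omega)
  have hX1 : (1 : ℝ) ≤ X := by exact_mod_cast (by omega : 1 ≤ X)
  obtain ⟨l, hl⟩ : ∃ l, l = Real.log X := ⟨_, rfl⟩
  rw [← hl] at h1 h2 hXA ⊢
  have h3 : √(X : ℝ) ≤ X := by
    have h := Real.sq_sqrt (by linarith : (0 : ℝ) ≤ X)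
    have h1 : 1 ≤ √(X : ℝ) := by rw [← Real.sqrt_one]; exact Real.sqrt_le_sqrt hX1
    nlinarith
  have h4 : 4 / ε * l ^ U * l ^ A ≤ m * l ^ A := by
    rw [pow_add] at h1
    linarith
  have h5 : 4 / ε * l ^ U ≤ m := le_of_mul_le_mul_right h4 (by positivity)
  rw [div_mul_eq_mul_div, div_le_iff₀ hε] at h5
  linarith

set_option maxHeartbeats 2000000 in
open Classical in
/-- the theorem for the families, and sets of primes -/
theorem ac_tupleP (r : ℕ) (f : Fin r → ℝ → ℝ) (x0 : Fin r → ℝ) (k0 : Fin r → ℕ) (hf : ∀ j, Ord (f j) (x0 j) (k0 j)) (δ0 ε0 : ℝ)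
    (hδ0 : 0 < δ0) (hε0 : 0 < ε0) (hε02 : ε0 < 1 / 2) (κ : Fin r → ℤ) (hκ : ∀ j, κ j ≠ 0) (a J A C K₁ : ℕ) (θ : ℝ) (hθ : 0 < θ)
    (ε : ℝ) (hε : 0 < ε) (hε1 : ε ≤ 1) : ∃ N₀ : ℕ, ∀ X : ℕ, N₀ ≤ X → ∀ M : Fin r → ℕ, (∀ j, N₀ ≤ M j) → ∀ U : Fin r → ℝ,
    (∀ j, Rg (k0 j) δ0 ε0 (M j) (U j)) →
    (∀ j, U j / (M j : ℝ) ^ k0 j ≤ X * Real.log X ^ C ∧ (X : ℝ) ≤ U j / (M j : ℝ) ^ k0 j * Real.log X ^ C) →
    ∀ y : ℕ, θ * Real.log (Real.log X) ≤ y → y ≤ K₁ * Real.log (Real.log X) →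
    ∀ c : Fin r → ℤ, (∀ j, |(c j : ℝ) + κ j * (U j * f j (x0 j))| ≤ U j / (M j : ℝ) ^ k0 j * Real.log (U j) ^ a) →
    ∀ h : Fin r → ℕ, (∀ j, 1 ≤ h j ∧ (h j : ℝ) ≤ Real.log X ^ J) →
    ∀ (I : Finset ℕ) (g : Fin r → ℕ → ℕ), (∀ j, Set.InjOn (g j) I) →
    (∀ j, ∀ i ∈ I, (g j i).Prime ∧ g j i ≤ X) → (X : ℝ) ≤ I.card * Real.log X ^ A →
    ∀ σ : Fin r → ℤ, (∀ j, σ j = 1 ∨ σ j = -1) →
    (((Fintype.piFinset (fun j : Fin r => Ioc (M j) (2 * M j))).filter (fun m => ¬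
      ((∀ j, ∀ i ∈ I, 0 < ((primorial y * h j : ℕ) : ℤ) * (c j + κ j * vl (f j) (x0 j) (U j) (m j)) + σ j * (g j i : ℕ)) →
        ∀ t : ℕ, t ≤ r → |((I.filter (fun i => ∀ j : Fin r, (j : ℕ) < t →
          (((primorial y * h j : ℕ) : ℤ) * (c j + κ j * vl (f j) (x0 j) (U j) (m j)) + σ j * (g j i : ℕ)).toNat.Prime)).card : ℝ) -
          I.card / (Vz y * Real.log X) ^ t| ≤ ε * (I.card / (Vz y * Real.log X) ^ t)))).card : ℝ) ≤ ε * ∏ j, (M j : ℝ) := by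
  obtain ⟨N1, hN1⟩ := ac_tuple r f x0 k0 hf δ0 ε0 hδ0 hε0 hε02 κ hκ a J (A + 1) C K₁ θ hθ (ε / 2) (by linarith) (by linarith)
  obtain ⟨N2, hN2⟩ := big_enoughL A (2 * K₁ + J + 1 + r) ε hε
  obtain ⟨N3, hN3⟩ := ev_L' (max 3 r)
  refine ⟨max N1 (max N2 N3), fun X hX M hM U hU hR y hy1 hy2 c hc h hh S f' hinj hSp hSA σ hσ => ?_⟩
  have b2 := hN2 X (by omega) S.card hSA
  have b3 := hN3 X (by omega)
  obtain ⟨l, hl⟩ : ∃ l, l = Real.log X := ⟨_, rfl⟩
  rw [← hl] at b2 b3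
  have hl3 : 3 ≤ l := (le_max_left _ _).trans b3
  have hrl : (r : ℝ) ≤ l := (le_max_right _ _).trans b3
  obtain ⟨Q, hQ⟩ : ∃ Q : ℝ, Q = Vz y * Real.log X := ⟨_, rfl⟩
  have hVy := Vz_pos y
  have hQ0 : 0 < Q := by rw [hQ, ← hl]; exact mul_pos hVy (by linarith)
  have hQk : Q ≤ l := by
    rw [hQ, ← hl]
    exact mul_le_of_le_one_left (by linarith) (Vz_le_one y)
  have hmult : ∀ j, ((primorial y * h j : ℕ) : ℝ) ≤ l ^ (2 * K₁ + J) := by
    intro j
    have h1 : ((primorial y : ℕ) : ℝ) ≤ l ^ (2 * K₁) :=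
      Pool.Agent.Y877.SX.primorial_le_log K₁ y l (by linarith [Real.exp_one_lt_d9]) (by rw [hl]; exact hy2)
    have h2 := (hh j).2
    rw [← hl] at h2
    push_cast
    rw [pow_add]
    exact mul_le_mul h1 h2 (Nat.cast_nonneg _) (by positivity)
  obtain ⟨R, hR'⟩ : ∃ R, R = S.filter (fun s => ∃ j : Fin r, f' j s ∣ primorial y * h j) := ⟨_, rfl⟩
  obtain ⟨S', hS'⟩ : ∃ S', S' = S.filter (fun s => ¬ ∃ j : Fin r, f' j s ∣ primorial y * h j) := ⟨_, rfl⟩
  have hsub : S' ⊆ S := by rw [hS']; exact filter_subset _ _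
  have hRc : (R.card : ℝ) ≤ l ^ (2 * K₁ + J + 1) := by
    have h1 : R ⊆ (univ : Finset (Fin r)).biUnion (fun j => S.filter (fun s => f' j s ∣ primorial y * h j)) := by
      intro s hs
      rw [hR', mem_filter] at hs
      obtain ⟨hs1, j, hj⟩ := hs
      rw [mem_biUnion]
      exact ⟨j, mem_univ _, mem_filter.2 ⟨hs1, hj⟩⟩
    have h2 : ∀ j ∈ (univ : Finset (Fin r)), ((S.filter (fun s => f' j s ∣ primorial y * h j)).card : ℝ) ≤ l ^ (2 * K₁ + J) := by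
      intro j _
      have h3 : ((S.filter (fun s => f' j s ∣ primorial y * h j)).image (f' j)).card =
          (S.filter (fun s => f' j s ∣ primorial y * h j)).card := by
        refine card_image_of_injOn ((hinj j).mono ?_)
        intro s hs
        exact mem_coe.2 (mem_filter.1 (mem_coe.1 hs)).1
      rw [← h3]
      have h4 : ((S.filter (fun s => f' j s ∣ primorial y * h j)).image (f' j)).card ≤ primorial y * h j :=
        few_dvd _ (Nat.mul_pos (primorial_pos y) (hh j).1) _ fun q hq => by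
          rw [mem_image] at hq
          obtain ⟨s, hs, rfl⟩ := hq
          rw [mem_filter] at hs
          exact ⟨(hSp j s hs.1).1, hs.2⟩
      have h5 : (((S.filter (fun s => f' j s ∣ primorial y * h j)).image (f' j)).card : ℝ) ≤ ((primorial y * h j : ℕ) : ℝ) := by
        exact_mod_cast h4
      exact h5.trans (hmult j)
    have h3 : (R.card : ℝ) ≤ ∑ j : Fin r, ((S.filter (fun s => f' j s ∣ primorial y * h j)).card : ℝ) := by
      exact_mod_cast (card_le_card h1).trans card_biUnion_le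
    refine h3.trans ((sum_le_sum h2).trans ?_)
    rw [sum_const, card_univ, Fintype.card_fin, nsmul_eq_mul, pow_succ, mul_comm]
    exact mul_le_mul_of_nonneg_left hrl (by positivity)
  have hcard : ∀ (P : ℕ → Prop) [DecidablePred P], ((S.filter P).card : ℝ) ≤ ((S'.filter P).card : ℝ) + l ^ (2 * K₁ + J + 1) := by
    intro P _
    have h1 : S.filter P ⊆ S'.filter P ∪ R := by
      intro s hs
      rw [mem_filter] at hs
      rw [mem_union, mem_filter, hS', hR', mem_filter, mem_filter]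
      by_cases hd : ∃ j : Fin r, f' j s ∣ primorial y * h j
      · exact Or.inr ⟨hs.1, hd⟩
      · exact Or.inl ⟨⟨hs.1, hd⟩, hs.2⟩
    have h2 : ((S.filter P).card : ℝ) ≤ ((S'.filter P).card : ℝ) + R.card := by
      exact_mod_cast (card_le_card h1).trans (card_union_le _ _)
    linarith
  have hc1 : (S.card : ℝ) ≤ S'.card + l ^ (2 * K₁ + J + 1) := by
    have h1 := hcard (fun _ => True)
    rwa [filter_true_of_mem (fun _ _ => trivial), filter_true_of_mem (fun _ _ => trivial)] at h1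
  have hc2 : (S'.card : ℝ) ≤ S.card := by exact_mod_cast card_le_card hsub
  have hd1 : l ^ (2 * K₁ + J + 1) ≤ l ^ (2 * K₁ + J + 1 + r) := pow_le_pow_right₀ (by linarith) (by omega)
  have hd2 : ∀ t ≤ r, l ^ (2 * K₁ + J + 1) * Q ^ t ≤ l ^ (2 * K₁ + J + 1 + r) := by
    intro t ht
    rw [pow_add l (2 * K₁ + J + 1) r]
    apply mul_le_mul_of_nonneg_left _ (by positivity)
    calc Q ^ t ≤ l ^ t := pow_le_pow_left₀ hQ0.le hQk t
      _ ≤ _ := pow_le_pow_right₀ (by linarith) ht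
  have hdpos : 0 ≤ l ^ (2 * K₁ + J + 1) := by positivity
  have hSA' : (X : ℝ) ≤ S'.card * Real.log X ^ (A + 1) := by
    rw [← hl] at hSA ⊢
    have h1 : (S.card : ℝ) ≤ 2 * S'.card := by nlinarith
    calc (X : ℝ) ≤ S.card * l ^ A := hSA
      _ ≤ (2 * S'.card) * l ^ A := mul_le_mul_of_nonneg_right h1 (by positivity)
      _ = S'.card * (l ^ A * 2) := by ring
      _ ≤ S'.card * (l ^ A * l) := by
          apply mul_le_mul_of_nonneg_left _ (Nat.cast_nonneg _)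
          exact mul_le_mul_of_nonneg_left (by linarith) (by positivity)
      _ = _ := by rw [pow_succ]
  have h5 := hN1 X (by omega) M (fun j => by have := hM j; omega) U hU hR y hy1 hy2 c hc h hh S' f'
    (fun j => (hinj j).mono (by exact_mod_cast hsub))
    (fun j s hs => by
    rw [hS', mem_filter] at hs
    have h6 := hSp j s hs.1
    refine ⟨h6.1.pos, h6.2, ?_⟩
    exact h6.1.coprime_iff_not_dvd.2 fun hd => hs.2 ⟨j, hd⟩) hSA' σ hσ
  have hMpos : 0 ≤ ∏ j, (M j : ℝ) := prod_nonneg fun j _ => Nat.cast_nonneg _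
  refine le_trans ?_ (h5.trans (by nlinarith))
  norm_cast
  apply card_le_card
  intro m hm
  rw [mem_filter] at hm ⊢
  refine ⟨hm.1, fun hg => hm.2 ?_⟩
  intro hpos t ht
  have g1 := hg (fun j s hs => hpos j s (hsub hs)) t ht
  rw [← hQ] at g1 ⊢
  obtain ⟨W, hW⟩ : ∃ W : ℕ → Prop, ∀ s, W s ↔ ∀ j : Fin r, (j : ℕ) < t →
      (((primorial y * h j : ℕ) : ℤ) * (c j + κ j * vl (f j) (x0 j) (U j) (m j)) + σ j * (f' j s : ℕ)).toNat.Prime := ⟨_, fun _ => Iff.rfl⟩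
  have hW1 : ∀ Z : Finset ℕ, (Z.filter (fun s => ∀ j : Fin r, (j : ℕ) < t →
      (((primorial y * h j : ℕ) : ℤ) * (c j + κ j * vl (f j) (x0 j) (U j) (m j)) + σ j * (f' j s : ℕ)).toNat.Prime)) = Z.filter W := by
    intro Z
    apply filter_congr
    intro s _
    rw [hW]
  rw [hW1] at g1 ⊢
  have h6 : ((S'.filter W).card : ℝ) ≤ ((S.filter W).card : ℝ) := by
    exact_mod_cast card_le_card (filter_subset_filter _ hsub)
  have h7 := hcard W
  have q1 := hd2 t ht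
  exact remove_few (S.card : ℝ) (S'.card : ℝ) _ _ (l ^ (2 * K₁ + J + 1)) (Q ^ t) ε (by positivity) hε hε1 hc2 hc1 h6 h7 hdpos
    (Nat.cast_nonneg _) (by linarith) (by linarith) g1

end Pool.Agent.W2helper62.DS
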