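import Pool.Agent.W2helper62.DS.DS8

set_option autoImplicit false

/-! The theorem for the families in terms of the number of indices. -/

namespace Pool.Agent.W2helper62.DS
open Finset
open Pool.Agent.H373R2.T7 (Vz Vz_pos Vz_le_one ev_L')
open Pool.Agent.N625.PT
open Pool.Agent.W2helper30.AN

/-- change of the logarithm in the main term -/
lemma main_change (t : ℕ) (m V l L N δ ε : ℝ) (hm : 0 ≤ m) (hV : 0 < V) (hl : 0 < l) (hlL : l ≤ L) (hδ : L ≤ (1 + δ) * l)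
    (hε : 0 ≤ ε) (hε1 : (1 + δ) ^ t ≤ 1 + ε / 2)
    (h : |N - m / (V * L) ^ t| ≤ ε / 2 * (m / (V * L) ^ t)) : |N - m / (V * l) ^ t| ≤ ε * (m / (V * l) ^ t) := by
  have hL : 0 < L := lt_of_lt_of_le hl hlL
  have e1 : m / (V * L) ^ t ≤ m / (V * l) ^ t := by
    apply div_le_div_of_nonneg_left hm (by positivity)
    apply pow_le_pow_left₀ (by positivity)
    exact mul_le_mul_of_nonneg_left hlL hV.le
  have e2 : m / (V * l) ^ t ≤ (1 + ε / 2) * (m / (V * L) ^ t) := by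
    rw [mul_div_assoc', div_le_div_iff₀ (by positivity) (by positivity)]
    have h1 : (V * L) ^ t ≤ (1 + ε / 2) * (V * l) ^ t := by
      calc (V * L) ^ t ≤ ((1 + δ) * (V * l)) ^ t := by
            apply pow_le_pow_left₀ (by positivity)
            calc V * L ≤ V * ((1 + δ) * l) := mul_le_mul_of_nonneg_left hδ hV.le
              _ = _ := by ring
        _ = (1 + δ) ^ t * (V * l) ^ t := by rw [mul_pow]
        _ ≤ _ := mul_le_mul_of_nonneg_right hε1 (by positivity)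
    calc m * (V * L) ^ t ≤ m * ((1 + ε / 2) * (V * l) ^ t) := mul_le_mul_of_nonneg_left h1 hm
      _ = _ := by ring
  have e3 : 0 ≤ m / (V * L) ^ t := by positivity
  obtain ⟨h1, h2⟩ := abs_le.1 h
  rw [abs_le]
  constructor <;> nlinarith

/-- the scale -/
lemma scale_n (E r : ℕ) (ε : ℝ) (hε : 0 < ε) (hε1 : ε ≤ 1) : ∃ δ : ℝ, 0 < δ ∧ (∀ t ≤ r, (1 + δ) ^ t ≤ 1 + ε / 2) ∧
    ∃ n₀ : ℕ, ∀ n : ℕ, n₀ ≤ n → ∀ X : ℕ, X = ⌈(n : ℝ) * Real.log n ^ E⌉₊ →
    n ≤ X ∧ 1 ≤ Real.log n ∧ (n : ℝ) * Real.log n ^ E ≤ X ∧ (X : ℝ) ≤ n * Real.log n ^ (E + 1) ∧ Real.log n ≤ Real.log X ∧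
    Real.log X ≤ (1 + δ) * Real.log n ∧ Real.log (Real.log n) ≤ Real.log (Real.log X) ∧
    Real.log (Real.log X) ≤ 2 * Real.log (Real.log n) := by
  obtain ⟨δ, hδ⟩ : ∃ δ : ℝ, δ = ε / (4 * (r + 1)) := ⟨_, rfl⟩
  have hr0 : (0 : ℝ) ≤ r := Nat.cast_nonneg r
  have hδ0 : 0 < δ := by rw [hδ]; positivity
  have hrδ : (r + 1 : ℝ) * δ = ε / 4 := by rw [hδ]; field_simp
  have hδ1 : δ ≤ 1 := by nlinarith
  obtain ⟨x1, hx1⟩ := Filter.eventually_atTop.1 (Real.isLittleO_log_id_atTop.bound (show (0 : ℝ) < δ / (E + 1) by positivity))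
  obtain ⟨n₀, hn₀⟩ := ev_L' (max 3 x1)
  refine ⟨δ, hδ0, fun t ht => ?_, max n₀ 2, fun n hn X hX => ?_⟩
  · have ht' : (t : ℝ) ≤ r := by exact_mod_cast ht
    have h1 : (t : ℝ) * δ ≤ ε / 4 := by nlinarith
    have := pow_up t δ hδ0.le (by linarith)
    linarith
  · have h3 := hn₀ n (by omega)
    obtain ⟨l, hl⟩ : ∃ l, l = Real.log n := ⟨_, rfl⟩
    rw [← hl] at h3 hX ⊢
    have hl3 : 3 ≤ l := (le_max_left _ _).trans h3
    have hlx : x1 ≤ l := (le_max_right _ _).trans h3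
    have hl0 : 0 < l := by linarith
    have hn0 : (1 : ℝ) ≤ n := by exact_mod_cast (by omega : 1 ≤ n)
    have hlE : 1 ≤ l ^ E := one_le_pow₀ (by linarith)
    have hnl : 1 ≤ n * l ^ E := one_le_mul_of_one_le_of_one_le hn0 hlE
    have g1 : (n : ℝ) * l ^ E ≤ X := by rw [hX]; exact Nat.le_ceil _
    have g2 : (X : ℝ) ≤ n * l ^ (E + 1) := by
      have : (X : ℝ) < n * l ^ E + 1 := by rw [hX]; exact Nat.ceil_lt_add_one (by linarith)
      have h4 : (n : ℝ) * l ^ (E + 1) = l * (n * l ^ E) := by rw [pow_succ]; ring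
      rw [h4]
      nlinarith
    have g3 : (n : ℝ) ≤ X := (le_mul_of_one_le_right (by linarith) hlE).trans g1
    have hX0 : (0 : ℝ) < X := by linarith
    have g4 : l ≤ Real.log X := by
      rw [hl]
      exact Real.log_le_log (by linarith) g3
    have hlog : (E + 1 : ℝ) * Real.log l ≤ δ * l := by
      have h4 := hx1 l hlx
      simp only [id] at h4
      rw [Real.norm_of_nonneg (Real.log_nonneg (by linarith)), Real.norm_of_nonneg hl0.le] at h4
      have hE : (0 : ℝ) < E + 1 := by positivity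
      calc (E + 1 : ℝ) * Real.log l ≤ (E + 1) * (δ / (E + 1) * l) := mul_le_mul_of_nonneg_left h4 hE.le
        _ = δ * l := by field_simp
    have g5 : Real.log X ≤ (1 + δ) * l := by
      have h4 := Real.log_le_log hX0 g2
      rw [Real.log_mul (by linarith) (by positivity), Real.log_pow, ← hl] at h4
      push_cast at h4
      linarith
    refine ⟨by exact_mod_cast g3, by linarith, g1, g2, g4, g5, Real.log_le_log hl0 g4, ?_⟩
    have h5 : Real.log X ≤ l ^ 2 := by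
      have : (1 + δ) * l ≤ 2 * l := mul_le_mul_of_nonneg_right (by linarith) hl0.le
      nlinarith
    have h6 := Real.log_le_log (by linarith) h5
    rw [Real.log_pow] at h6
    push_cast at h6
    exact h6

set_option maxHeartbeats 2000000 in
open Classical in
/-- the theorem for the families, in terms of the number of indices -/
theorem ac_tupleT (r : ℕ) (f : Fin r → ℝ → ℝ) (x0 : Fin r → ℝ) (k0 : Fin r → ℕ) (hf : ∀ j, Ord (f j) (x0 j) (k0 j)) (δ0 ε0 : ℝ)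
    (hδ0 : 0 < δ0) (hε0 : 0 < ε0) (hε02 : ε0 < 1 / 2) (κ : Fin r → ℤ) (hκ : ∀ j, κ j ≠ 0) (a J A C E K₁ : ℕ) (θ : ℝ) (hθ : 0 < θ)
    (ε : ℝ) (hε : 0 < ε) (hε1 : ε ≤ 1) : ∃ N₀ : ℕ, ∀ n : ℕ, N₀ ≤ n → ∀ M : Fin r → ℕ, (∀ j, N₀ ≤ M j) → ∀ U : Fin r → ℝ,
    (∀ j, Rg (k0 j) δ0 ε0 (M j) (U j)) →
    (∀ j, U j / (M j : ℝ) ^ k0 j ≤ n * Real.log n ^ C ∧ (n : ℝ) ≤ U j / (M j : ℝ) ^ k0 j * Real.log n ^ C) →
    ∀ y : ℕ, θ * Real.log (Real.log n) ≤ y → y ≤ K₁ * Real.log (Real.log n) →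
    ∀ c : Fin r → ℤ, (∀ j, |(c j : ℝ) + κ j * (U j * f j (x0 j))| ≤ U j / (M j : ℝ) ^ k0 j * Real.log (U j) ^ a) →
    ∀ h : Fin r → ℕ, (∀ j, 1 ≤ h j ∧ (h j : ℝ) ≤ Real.log n ^ J) →
    ∀ (I : Finset ℕ) (g : Fin r → ℕ → ℕ), (∀ j, Set.InjOn (g j) I) →
    (∀ j, ∀ i ∈ I, (g j i).Prime ∧ (g j i : ℝ) ≤ n * Real.log n ^ E) → (n : ℝ) ≤ I.card * Real.log n ^ A →
    ∀ σ : Fin r → ℤ, (∀ j, σ j = 1 ∨ σ j = -1) →
    (((Fintype.piFinset (fun j : Fin r => Ioc (M j) (2 * M j))).filter (fun m => ¬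
      ((∀ j, ∀ i ∈ I, 0 < ((primorial y * h j : ℕ) : ℤ) * (c j + κ j * vl (f j) (x0 j) (U j) (m j)) + σ j * (g j i : ℕ)) →
        ∀ t : ℕ, t ≤ r → |((I.filter (fun i => ∀ j : Fin r, (j : ℕ) < t →
          (((primorial y * h j : ℕ) : ℤ) * (c j + κ j * vl (f j) (x0 j) (U j) (m j)) + σ j * (g j i : ℕ)).toNat.Prime)).card : ℝ) -
          I.card / (Vz y * Real.log n) ^ t| ≤ ε * (I.card / (Vz y * Real.log n) ^ t)))).card : ℝ) ≤ ε * ∏ j, (M j : ℝ) := by
  obtain ⟨δ, hδ, hδr, n₁, hn₁⟩ := scale_n E r ε hε hε1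
  obtain ⟨N1, hN1⟩ := ac_tupleP r f x0 k0 hf δ0 ε0 hδ0 hε0 hε02 κ hκ a J (A + (E + 1)) (C + (E + 1)) K₁ (θ / 2) (by linarith)
    (ε / 2) (by linarith) (by linarith)
  refine ⟨max N1 n₁, fun n hn M hM U hU hR y hy1 hy2 c hc h hh I g hinj hg hIA σ hσ => ?_⟩
  obtain ⟨X, hX⟩ : ∃ X, X = ⌈(n : ℝ) * Real.log n ^ E⌉₊ := ⟨_, rfl⟩
  obtain ⟨s1, s2, s3, s4, s5, s6, s7, s8⟩ := hn₁ n (by omega) X hX
  have hn0 : (0 : ℝ) ≤ n := Nat.cast_nonneg _
  have hl0 : 0 ≤ Real.log n := by linarith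
  have hnX : (n : ℝ) ≤ X := by exact_mod_cast s1
  have hpw : ∀ e : ℕ, Real.log n ^ e ≤ Real.log X ^ e := fun e => pow_le_pow_left₀ hl0 s5 e
  have hlX1 : 1 ≤ Real.log X := by linarith
  have h5 := hN1 X (by omega) M (fun j => by have := hM j; omega) U hU (fun j => by
    have hj := hR j
    have hR0 : 0 ≤ U j / (M j : ℝ) ^ k0 j := by
      by_contra hc
      push Not at hc
      have h1 : U j / (M j : ℝ) ^ k0 j * Real.log n ^ C ≤ 0 := mul_nonpos_of_nonpos_of_nonneg hc.le (by positivity)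
      have h2 : (0 : ℝ) < n := by
        by_contra h3
        push Not at h3
        have : (n : ℝ) = 0 := le_antisymm h3 hn0
        rw [this, Real.log_zero] at s2
        linarith
      linarith [hj.2]
    constructor
    · calc U j / (M j : ℝ) ^ k0 j ≤ n * Real.log n ^ C := hj.1
        _ ≤ X * Real.log X ^ (C + (E + 1)) := by
            apply mul_le_mul hnX _ (by positivity) (Nat.cast_nonneg _)
            exact (hpw C).trans (pow_le_pow_right₀ hlX1 (by omega))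
    · calc (X : ℝ) ≤ n * Real.log n ^ (E + 1) := s4
        _ ≤ (U j / (M j : ℝ) ^ k0 j * Real.log n ^ C) * Real.log n ^ (E + 1) := mul_le_mul_of_nonneg_right hj.2 (by positivity)
        _ = U j / (M j : ℝ) ^ k0 j * Real.log n ^ (C + (E + 1)) := by rw [pow_add]; ring
        _ ≤ _ := mul_le_mul_of_nonneg_left (hpw _) hR0) y
    (by
      have : θ / 2 * Real.log (Real.log X) ≤ θ / 2 * (2 * Real.log (Real.log n)) := mul_le_mul_of_nonneg_left s8 (by linarith)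
      linarith)
    (hy2.trans (mul_le_mul_of_nonneg_left s7 (Nat.cast_nonneg _))) c hc h (fun j => ⟨(hh j).1, (hh j).2.trans (hpw J)⟩) I g hinj
    (fun j i hi => ⟨(hg j i hi).1, by
      have := (hg j i hi).2.trans s3
      exact_mod_cast this⟩)
    (by
      calc (X : ℝ) ≤ n * Real.log n ^ (E + 1) := s4
        _ ≤ (I.card * Real.log n ^ A) * Real.log n ^ (E + 1) := mul_le_mul_of_nonneg_right hIA (by positivity)
        _ = I.card * Real.log n ^ (A + (E + 1)) := by rw [pow_add]; ring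
        _ ≤ _ := mul_le_mul_of_nonneg_left (hpw _) (Nat.cast_nonneg _)) σ hσ
  have hMpos : 0 ≤ ∏ j, (M j : ℝ) := prod_nonneg fun j _ => Nat.cast_nonneg _
  refine le_trans ?_ (h5.trans (by nlinarith))
  norm_cast
  apply card_le_card
  intro m hm
  rw [mem_filter] at hm ⊢
  refine ⟨hm.1, fun hg => hm.2 ?_⟩
  intro hpos t ht
  exact main_change t _ (Vz y) (Real.log n) (Real.log X) _ δ ε (Nat.cast_nonneg _) (Vz_pos y) (by linarith) s5 s6 hε.le (hδr t ht)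
    (hg hpos t ht)

end Pool.Agent.W2helper62.DS
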